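import Pool.Agent.V8H25.Gov.Shift

/-!
# Integral combinations of representations, and the inequality of Cauchy and Schwarz
-/

set_option autoImplicit false
set_option linter.unusedSectionVars false

namespace Pool.Agent.V8H25.Gov

open NumberField Complex Filter Topology IsDedekindDomain Asymptotics Polynomial
open Pool.Agent.N172.HS
open Pool.Agent.W353.TP (HX sysH LL LL_tendsto bdd_isLittleO lamS_sub)
open Pool.Agent.W353.NF (vx)
open scoped ComplexConjugate

section comb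

variable {K : Type} [Field K] [NumberField K]

/-- The integral combination `∑ m_k σ_k` of representations. -/
noncomputable def comb {n : ℕ} (m : Fin n → ℤ) (σ : Fin n → WRep K) : WRep K where
  r := ∑ k, (σ k).r
  F j := (σ (finSigmaFinEquiv.symm j).1).F (finSigmaFinEquiv.symm j).2
  fld j := (σ (finSigmaFinEquiv.symm j).1).fld (finSigmaFinEquiv.symm j).2
  nf j := (σ (finSigmaFinEquiv.symm j).1).nf (finSigmaFinEquiv.symm j).2
  alg j := (σ (finSigmaFinEquiv.symm j).1).alg (finSigmaFinEquiv.symm j).2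
  𝔣 j := (σ (finSigmaFinEquiv.symm j).1).𝔣 (finSigmaFinEquiv.symm j).2
  k j := (σ (finSigmaFinEquiv.symm j).1).k (finSigmaFinEquiv.symm j).2
  t j := (σ (finSigmaFinEquiv.symm j).1).t (finSigmaFinEquiv.symm j).2
  χ j := (σ (finSigmaFinEquiv.symm j).1).χ (finSigmaFinEquiv.symm j).2
  hecke j := (σ (finSigmaFinEquiv.symm j).1).hecke (finSigmaFinEquiv.symm j).2
  c j := m (finSigmaFinEquiv.symm j).1 *
    (σ (finSigmaFinEquiv.symm j).1).c (finSigmaFinEquiv.symm j).2

theorem comb_tH {n : ℕ} (m : Fin n → ℤ) (σ : Fin n → WRep K) (x : HX K) :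
    (comb m σ).tH x = ∑ k, (m k : ℂ) * (σ k).tH x := by
  set g : (Σ k : Fin n, Fin (σ k).r) → ℂ := fun p => (m p.1 : ℂ) * (((σ p.1).c p.2 : ℂ) *
        pc K ((σ p.1).χ p.2) x) with hg
  have h1 : (comb m σ).tH x = ∑ j : Fin (∑ k, (σ k).r), g (finSigmaFinEquiv.symm j) := by
    unfold WRep.tH
    refine Finset.sum_congr rfl fun j _ => ?_
    have : ((comb m σ).c j : ℂ) = (m (finSigmaFinEquiv.symm j).1 : ℂ) *
        ((σ (finSigmaFinEquiv.symm j).1).c (finSigmaFinEquiv.symm j).2 : ℂ) := by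
      unfold comb
      push_cast
      rfl
    rw [this, mul_assoc]
    rfl
  have h2 : ∑ j : Fin (∑ k, (σ k).r), g (finSigmaFinEquiv.symm j) = ∑ p, g p :=
    Fintype.sum_equiv finSigmaFinEquiv.symm _ _ fun _ => rfl
  rw [h1, h2, Fintype.sum_sigma]
  refine Finset.sum_congr rfl fun k _ => ?_
  unfold WRep.tH
  rw [Finset.mul_sum]

theorem inner_comb {n : ℕ} (m : Fin n → ℤ) (σ : Fin n → WRep K) (ρ : WRep K) :
    ρ.inner (comb m σ) = ∑ k, m k * ρ.inner (σ k) := by
  have hQ : StNvq := Pool.Agent.N134.HS.t_nvq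
  have h1 : HasGram ρ.tH (comb m σ).tH (ρ.inner (comb m σ)) := WRep.gram hQ _ _
  have h2 := HasGram.sum (K := K) (Finset.univ : Finset Unit) (Finset.univ : Finset (Fin n))
    (f := fun _ => ρ.tH) (f' := fun k => (σ k).tH) (fun _ _ => ρ.bdd) (fun k _ => (σ k).bdd)
    (fun _ => 1) (fun k => (m k : ℝ)) (g := fun _ k => (ρ.inner (σ k) : ℝ))
    (fun _ _ k _ => WRep.gram hQ _ _)
  have h3 : HasGram ρ.tH (comb m σ).tH (∑ k, (m k : ℝ) * (ρ.inner (σ k) : ℝ)) := by
    simp only [Finset.univ_unique, Finset.sum_singleton, Complex.ofReal_one, one_mul,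
      Complex.ofReal_intCast] at h2
    have e : (comb m σ).tH = fun x => ∑ k, (m k : ℂ) * (σ k).tH x := by
      funext x
      exact comb_tH m σ x
    rw [e]
    exact h2
  have h4 := h1.unique h3
  exact_mod_cast h4

theorem comb_inner_self {n : ℕ} (m : Fin n → ℤ) (σ : Fin n → WRep K) :
    (comb m σ).inner (comb m σ) = ∑ k, ∑ l, m k * m l * (σ k).inner (σ l) := by
  rw [inner_comb]
  refine Finset.sum_congr rfl fun k _ => ?_
  rw [WRep.inner_comm, inner_comb, Finset.mul_sum]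
  refine Finset.sum_congr rfl fun l _ => ?_
  ring

theorem inner_self_nonneg (ρ : WRep K) : 0 ≤ ρ.inner ρ := by
  have hQ : StNvq := Pool.Agent.N134.HS.t_nvq
  have h1 : HasGram ρ.tH ρ.tH (ρ.inner ρ) := WRep.gram hQ _ _
  exact_mod_cast h1.nonneg

/-- **Irreducible representations which are not orthogonal are equal up to the sign.** -/
theorem irr_dichotomy {ρ σ : WRep K} (hρ : ρ.IsIrr) (hσ : σ.IsIrr) (h : ρ.inner σ ≠ 0) :
    (ρ.inner σ = 1 ∨ ρ.inner σ = -1) ∧
      ∀ θ : WRep K, ρ.inner θ = ρ.inner σ * σ.inner θ := by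
  have h1 := inner_le_one hρ hσ
  have h2 : |ρ.inner σ| ≤ 1 := by exact_mod_cast h1
  have h3 : ρ.inner σ = 1 ∨ ρ.inner σ = -1 := by
    have := abs_le.1 h2
    omega
  refine ⟨h3, fun θ => ?_⟩
  set s : ℤ := ρ.inner σ with hs
  have hss : s * s = 1 := by rcases h3 with h3 | h3 <;> rw [h3] <;> norm_num
  -- for all integers `a`, `0 ≤ ⟨a (ρ - s σ) + θ, a (ρ - s σ) + θ⟩ = 2 a ⟨ρ - s σ, θ⟩ + ⟨θ, θ⟩`
  have key : ∀ a : ℤ, 0 ≤ 2 * a * (ρ.inner θ - s * σ.inner θ) + θ.inner θ := by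
    intro a
    have h4 := inner_self_nonneg (comb ![a, -(a * s), 1] ![ρ, σ, θ])
    rw [comb_inner_self] at h4
    simp only [Fin.sum_univ_three, Matrix.cons_val_zero, Matrix.cons_val_one,
      Matrix.cons_val_two, Matrix.head_cons, Matrix.tail_cons] at h4
    have e1 : ρ.inner ρ = 1 := hρ
    have e2 : σ.inner σ = 1 := hσ
    have e3 : σ.inner ρ = s := by rw [WRep.inner_comm]
    have e4 : θ.inner ρ = ρ.inner θ := WRep.inner_comm _ _
    have e5 : θ.inner σ = σ.inner θ := WRep.inner_comm _ _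
    rw [e1, e2, e3, e4, e5, ← hs] at h4
    have e6 : a * a * 1 + a * -(a * s) * s + a * 1 * ρ.inner θ +
        (-(a * s) * a * s + -(a * s) * -(a * s) * 1 + -(a * s) * 1 * σ.inner θ) +
        (1 * a * ρ.inner θ + 1 * -(a * s) * σ.inner θ + 1 * 1 * θ.inner θ) =
        a * a * (1 - s * s) + 2 * a * (ρ.inner θ - s * σ.inner θ) + θ.inner θ := by ring
    rw [e6, hss] at h4
    linarith
  by_contra hcon
  have hd : ρ.inner θ - s * σ.inner θ ≠ 0 := sub_ne_zero.2 hcon
  set d : ℤ := ρ.inner θ - s * σ.inner θ with hd'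
  have h5 := key (-(d * (θ.inner θ + 1)))
  have h6 := inner_self_nonneg θ
  have h7 : 1 ≤ d * d := by
    have : 0 < d * d := mul_self_pos.2 hd
    omega
  nlinarith

end comb

section cauchy

variable {K : Type} [Field K] [NumberField K]

theorem EH_mono {ε : ℝ} (hε : 0 < ε) {φ ψ : HX K → ℝ} {B B' : ℝ} (hφ : ∀ p, |φ p| ≤ B)
    (hψ : ∀ p, |ψ p| ≤ B') (h : ∀ p, φ p ≤ ψ p) : EH K ε φ ≤ EH K ε ψ := by
  have h1 : 0 ≤ EH K ε (fun p => ψ p + (-1) * φ p) :=
    EH_nonneg (fun p => by have := h p; linarith) ε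
  rw [EH_add hε hψ (B' := B) (fun p => by rw [neg_one_mul, abs_neg]; exact hφ p),
    EH_const_mul] at h1
  linarith

/-- **The inequality of Cauchy and Schwarz.** -/
theorem EH_cauchy {ε : ℝ} (hε : 0 < ε) {φ ψ : HX K → ℝ} {B B' : ℝ} (hφ : ∀ p, |φ p| ≤ B)
    (hψ : ∀ p, |ψ p| ≤ B') :
    (EH K ε (fun p => φ p * ψ p)) ^ 2 ≤
      EH K ε (fun p => φ p ^ 2) * EH K ε (fun p => ψ p ^ 2) := by
  have hB : 0 ≤ B := (abs_nonneg _).trans (hφ ((sysH K).nonempty.some))
  have b1 : ∀ p, |φ p ^ 2| ≤ B ^ 2 := fun p => by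
    rw [abs_pow]
    exact pow_le_pow_left₀ (abs_nonneg _) (hφ p) 2
  have b2 : ∀ p, |φ p * ψ p| ≤ B * B' := fun p => by
    rw [abs_mul]
    exact mul_le_mul (hφ p) (hψ p) (abs_nonneg _) hB
  have b3 : ∀ p, |ψ p ^ 2| ≤ B' ^ 2 := fun p => by
    rw [abs_pow]
    exact pow_le_pow_left₀ (abs_nonneg _) (hψ p) 2
  have key : ∀ t : ℝ, 0 ≤ EH K ε (fun p => ψ p ^ 2) * (t * t) +
      (2 * EH K ε (fun p => φ p * ψ p)) * t + EH K ε (fun p => φ p ^ 2) := by
    intro t
    have h1 : 0 ≤ EH K ε (fun p => φ p ^ 2 + ((2 * t) * (φ p * ψ p) + t ^ 2 * ψ p ^ 2)) :=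
      EH_nonneg (fun p => by nlinarith [sq_nonneg (φ p + t * ψ p)]) ε
    rw [EH_add hε b1 (B' := |2 * t| * (B * B') + t ^ 2 * B' ^ 2) (fun p => by
        refine (abs_add_le _ _).trans (add_le_add ?_ ?_)
        · rw [abs_mul]
          exact mul_le_mul_of_nonneg_left (b2 p) (abs_nonneg _)
        · rw [abs_mul, abs_of_nonneg (sq_nonneg t)]
          exact mul_le_mul_of_nonneg_left (b3 p) (sq_nonneg _)),
      EH_add hε (B := |2 * t| * (B * B')) (B' := t ^ 2 * B' ^ 2) (fun p => by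
        rw [abs_mul]
        exact mul_le_mul_of_nonneg_left (b2 p) (abs_nonneg _)) (fun p => by
        rw [abs_mul, abs_of_nonneg (sq_nonneg t)]
        exact mul_le_mul_of_nonneg_left (b3 p) (sq_nonneg _)),
      EH_const_mul, EH_const_mul] at h1
    linarith
  have h2 := discrim_le_zero key
  unfold discrim at h2
  nlinarith

end cauchy

end Pool.Agent.V8H25.Gov
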