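import Pool.Agent.V8H25.Gov.Prod

/-!
# The governing representation: the theorem
-/

set_option autoImplicit false
set_option linter.unusedSectionVars false

namespace Pool.Agent.V8H25.Gov

open NumberField Complex Filter Topology IsDedekindDomain Asymptotics Polynomial
open Pool.Agent.N172.HS
open Pool.Agent.W353.EF (IsFrobenius LFun)
open Pool.Agent.W353.TP (HX sysH LL LL_tendsto bdd_isLittleO lamS_sub)
open Pool.Agent.W353.EH (edgePoint size)
open scoped ComplexConjugate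

variable {K : Type} [Field K] [NumberField K]

/-- The virtual representation `θ` governs the orders of the functions `L(H^i(X) ⊗ ρ, s)` on the edge
line: whenever the order of `L(H^i(X) ⊗ ρ, s)` at a point `s = i/2 + 1 + iτ` exists, for an irreducible
`ρ` and a real `τ`, it is `-⟨ρ ⊗ | |^{iτ}, θ⟩`. -/
def Governs (X : Variety K) (i : ℕ) (θ : WRep K) : Prop :=
  ∀ ρ : WRep K, ρ.IsIrr → ∀ (τ : ℝ) (B : HeightOneSpectrum (𝓞 K) → ℂ[X]) (r : ℤ),
    IsTensorAt X i ρ τ B → HasOrder i τ B (-r) → r = (shift ρ τ).inner θ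

theorem size_zero (i : ℕ) (B : HeightOneSpectrum (𝓞 K) → ℂ[X]) (ε : ℝ) :
    size i 0 B ε = Pool.Agent.W353.EF.size i B ε := by
  unfold size Pool.Agent.W353.EF.size edgePoint
  simp

/-- a meromorphic continuation gives the order -/
theorem hasOrder_of_meromorphic {i : ℕ} {τ : ℝ} {B : HeightOneSpectrum (𝓞 K) → ℂ[X]} {m : ℤ}
    (h : Pool.Agent.W353.EH.HasOrder i τ B m) : HasOrder i τ B m := by
  obtain ⟨Λ, h1, h2, h3⟩ := h
  obtain ⟨g, hg, hg0, hg1⟩ := (meromorphicOrderAt_eq_int_iff h1).1 h3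
  refine ⟨g (edgePoint i τ), hg0, ?_⟩
  set P : ℂ := edgePoint i τ with hP
  have hPre : P.re = (i : ℝ) / 2 + 1 := by
    rw [hP]
    unfold edgePoint
    simp
  have hlim : Tendsto (fun ε : ℝ => P + ε) (𝓝[>] 0) (𝓝[≠] P) := by
    rw [tendsto_nhdsWithin_iff]
    constructor
    · have h4 : Tendsto (fun ε : ℝ => P + (ε : ℂ)) (𝓝 0) (𝓝 (P + ((0 : ℝ) : ℂ))) :=
        (continuous_const.add Complex.continuous_ofReal).tendsto 0
      rw [Complex.ofReal_zero, add_zero] at h4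
      exact h4.mono_left nhdsWithin_le_nhds
    · filter_upwards [self_mem_nhdsWithin] with ε hε
      have hε' : (0 : ℝ) < ε := hε
      rw [Set.mem_compl_iff, Set.mem_singleton_iff]
      intro h5
      have h6 : (ε : ℂ) = 0 := by linear_combination h5
      exact hε'.ne' (by exact_mod_cast h6)
  have hlim' : Tendsto (fun ε : ℝ => P + ε) (𝓝[>] 0) (𝓝 P) := hlim.mono_right nhdsWithin_le_nhds
  have h4 : Tendsto (fun ε : ℝ => g (P + ε)) (𝓝[>] 0) (𝓝 (g P)) :=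
    hg.continuousAt.tendsto.comp hlim'
  refine h4.congr' ?_
  filter_upwards [hlim.eventually hg1, hlim'.eventually h2, self_mem_nhdsWithin] with ε h5 h6 h7
  have hε' : (0 : ℝ) < ε := h7
  have h8 : (i : ℝ) / 2 + 1 < (P + (ε : ℂ)).re := by
    rw [Complex.add_re, hPre, Complex.ofReal_re]
    linarith
  have hne : (ε : ℂ) ≠ 0 := by exact_mod_cast hε'.ne'
  rw [← h6 h8, h5, smul_eq_mul, ← mul_assoc]
  have e : P + (ε : ℂ) - P = ε := by ring
  rw [e, ← zpow_add₀ hne, neg_add_cancel, zpow_zero, one_mul]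

/-- The irreducible representations `σ_1, …, σ_n`, at most `(b/δ)²` of them, are the exceptional ones
for `H^i(X)` and `δ`, `b = dim H^i(X)`: if `ρ` is irreducible and `ρ ⊗ | |^{iτ}` is orthogonal to all
the `σ_k`, then, without any assumption about a continuation, `|log |L(H^i(X) ⊗ ρ, s_τ + ε)||` is less
than `δ log(1/ε)` for arbitrarily small `ε > 0`, `s_τ = i/2 + 1 + iτ`.  All the constituents of `θ` are
among the `σ_k`: if `ρ` is orthogonal to all the `σ_k`, then it is orthogonal to `θ`. -/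
def Exceptional (X : Variety K) (i : ℕ) (θ : WRep K) (δ : ℝ) {n : ℕ} (σ : Fin n → WRep K) :
    Prop :=
  n * δ ^ 2 ≤ (X.betti i : ℝ) ^ 2 ∧ (∀ k, (σ k).IsIrr) ∧
    (∀ k l, k ≠ l → (σ k).inner (σ l) = 0) ∧
    (∀ ρ : WRep K, (∀ k, ρ.inner (σ k) = 0) → ρ.inner θ = 0) ∧
    ∀ (ρ : WRep K) (τ : ℝ), ρ.IsIrr → (∀ k, (shift ρ τ).inner (σ k) = 0) →
      ∀ B : HeightOneSpectrum (𝓞 K) → ℂ[X], IsTensorAt X i ρ τ B →
      (∀ᶠ ε : ℝ in 𝓝[>] 0, LFun B (edgePoint i τ + ε) ≠ 0) ∧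
      ∃ᶠ ε : ℝ in 𝓝[>] 0, |size i τ B ε| < δ

/-- **The theorem.** -/
theorem main (X : Variety K) :
    ∃ θ : ℕ → WRep K,
      (∀ i ≤ 2 * X.dim, Governs X i (θ i) ∧ (θ i).inner (θ i) ≤ (X.betti i : ℤ) ^ 2 ∧
        (∀ (B₂ : HeightOneSpectrum (𝓞 K) → ℂ[X]) (r₂ : ℤ), IsSquare X i B₂ →
          HasOrder (2 * i) 0 B₂ (-r₂) → (θ i).inner (θ i) ≤ r₂) ∧
        ∀ δ : ℝ, 0 < δ → δ < 1 → ∃ (n : ℕ) (σ : Fin n → WRep K), Exceptional X i (θ i) δ σ) ∧
      ∀ (Y : CMVariety K) (n : ℕ) (τ : ℝ), OrdersExist X Y n τ →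
        ∀ B : HeightOneSpectrum (𝓞 K) → ℂ[X], IsProductAt X Y.toVariety n τ B →
          (∀ᶠ ε : ℝ in 𝓝[>] 0, LFun B (edgePoint n τ + ε) ≠ 0) ∧
          Tendsto (size n τ B) (𝓝[>] 0) (𝓝 (pairing X Y θ n τ : ℝ)) ∧
          ∀ r : ℤ, HasOrder n τ B (-r) → r = pairing X Y θ n τ := by
  classical
  have hex : ∀ i, ∃ θ : WRep K, i ≤ 2 * X.dim → θ.inner θ ≤ (X.betti i : ℤ) ^ 2 ∧
      (∀ (B₂ : HeightOneSpectrum (𝓞 K) → ℂ[X]) (r₂ : ℤ), IsSquare X i B₂ →
        Tendsto (Pool.Agent.W353.EF.size (2 * i) B₂) (𝓝[>] 0) (𝓝 (r₂ : ℝ)) →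
        θ.inner θ ≤ r₂) ∧
      (∀ ρ : WRep K, ρ.IsIrr → ∀ (B : HeightOneSpectrum (𝓞 K) → ℂ[X]) (r : ℤ),
        IsTensor X i ρ B →
        Pool.Agent.Y149.Ord.HasOrder i B (-r) → r = ρ.inner θ) ∧
      ∃ (n : ℕ) (σ : Fin n → WRep K) (r : Fin n → ℤ), θ = comb r σ ∧ ∀ k, (σ k).IsIrr ∧
        ∃ B : HeightOneSpectrum (𝓞 K) → ℂ[X], IsTensor X i (σ k) B ∧
          Pool.Agent.Y149.Ord.HasOrder i B (-(r k)) ∧ r k ≠ 0 := by
    intro i
    by_cases hi : i ≤ 2 * X.dim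
    · obtain ⟨θ, h⟩ := governing hi
      exact ⟨θ, fun _ => h⟩
    · exact ⟨zeroRep K, fun h => absurd h hi⟩
  choose θ hθ using hex
  refine ⟨θ, fun i hi => ⟨fun ρ hρ τ B r hB hr => ?_, (hθ i hi).1, fun B₂ r₂ hB₂ hr₂ => ?_,
    fun δ hδ0 hδ1 => ?_⟩,
    fun Y n τ hY B hB => product_orders (fun i hi => (hθ i hi).2.2.1) Y n τ hY B hB⟩
  · exact (hθ i hi).2.2.1 (shift ρ τ) (shift_irr hρ τ) (shiftB τ B) r (tensor_shift hB)
      (hasOrder_shift.1 hr)
  · refine (hθ i hi).2.1 B₂ r₂ hB₂ ?_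
    have h := hasOrder_tendsto hr₂
    rw [Int.cast_neg, neg_neg] at h
    exact h.congr fun ε => size_zero _ _ _
  · obtain ⟨n, σ, h1, h2, h3, h4⟩ := spectrum hi (isPart_zero hi) (fun _ => True) hδ0 hδ1
    obtain ⟨n', σ', r, h5, h6⟩ := (hθ i hi).2.2.2
    refine ⟨n, σ, h1, fun k => (h2 k).1, h3, fun ρ hρ => ?_, fun ρ τ hρ hort B hB => ?_⟩
    · rw [h5, inner_comb]
      refine Finset.sum_eq_zero fun j _ => ?_
      obtain ⟨g1, B, g2, g3, g4⟩ := h6 j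
      have g5 : ∃ k, (σ' j).inner (σ k) ≠ 0 := by
        by_contra hcon
        push Not at hcon
        have g6 := (h4 (σ' j) g1 trivial hcon B g2).2 _ g3
        rw [inner_zero] at g6
        exact g4 (by omega)
      obtain ⟨k, hk⟩ := g5
      have g7 := (irr_dichotomy g1 (h2 k).1 hk).2 ρ
      rw [WRep.inner_comm ρ, g7, WRep.inner_comm (σ k) ρ, hρ k, mul_zero, mul_zero]
    · obtain ⟨h7, -⟩ := h4 (shift ρ τ) (shift_irr hρ τ) trivial hort (shiftB τ B)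
        (tensor_shift hB)
      have e9 : ∀ ε : ℝ, LFun (shiftB τ B) ((i : ℂ) / 2 + 1 + ε) =
          LFun B (edgePoint i τ + ε) := by
        intro ε
        rw [shiftB_LFun]
        unfold edgePoint
        congr 1
        ring
      refine ⟨?_, ?_⟩
      · have h8 := (tensor_size hi (tensor_shift hB)).1
        simpa only [e9] using h8
      · simp only [inner_zero, Int.cast_zero, sub_zero, shiftB_size] at h7
        exact h7

end Pool.Agent.V8H25.Gov
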