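import Pool.Agent.V8H25.Gov.Comb

/-!
# The edge line of the L-functions `L(H^i(X) ⊗ ρ, s)`
-/

set_option autoImplicit false
set_option linter.unusedSectionVars false

namespace Pool.Agent.V8H25.Gov

open NumberField Complex Filter Topology IsDedekindDomain Asymptotics Polynomial
open Pool.Agent.N172.HS
open Pool.Agent.W353.EF (IsFrobenius LFun)
open Pool.Agent.W353.TP (HX sysH LL LL_tendsto bdd_isLittleO lamS_sub)
open Pool.Agent.W353.NF (vx)
open Pool.Agent.W353.PV (Eig)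
open Pool.Agent.W540.BE (nm two_le_nm)
open Pool.Agent.W353.EH (edgePoint)
open scoped ComplexConjugate

variable {K : Type} [Field K] [NumberField K]

/-- The polynomials `B v` are the Euler factors of `L(H^i(X) ⊗ ρ, s)`: for almost all primes `v`,
`B_v(z) = ∏ (1 - α_j γ_l z)` with the eigenvalues `α_j` of the geometric Frobenius on `H^i(X)` and
numbers `γ_l` of absolute value one with the sum `tr ρ`; at the other primes `B v` is an arbitrary
polynomial, and no factor `1 / B_v(q_v^{-s})` has a pole at `s = i/2 + 1 + iτ`. -/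
def IsTensorAt (X : Variety K) (i : ℕ) (ρ : WRep K) (τ : ℝ)
    (B : HeightOneSpectrum (𝓞 K) → ℂ[X]) : Prop :=
  (∃ M : ℕ, ∀ᶠ v in cofinite, ∃ (α : Fin (X.betti i) → ℂ) (γ : Fin M → ℂ),
    IsFrobenius X.eqs X.dim i v α ∧ (∀ l, ‖γ l‖ = 1) ∧ ∑ l, γ l = ρ.trace v ∧
    ∀ z : ℂ, (B v).eval z = ∏ j, ∏ l, (1 - α j * γ l * z)) ∧
  ∀ v, (B v).eval ((Ideal.absNorm v.asIdeal : ℂ) ^ (-edgePoint i τ)) ≠ 0

/-- The polynomials `B v` are the Euler factors of `L(H^i(X) ⊗ H^i(X), s)`: for almost all primes `v`,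
`B_v(z) = ∏ (1 - α_j α_l z)` with the eigenvalues `α_j` of the geometric Frobenius on `H^i(X)`; at the
other primes `B v` is an arbitrary polynomial, and no factor `1 / B_v(q_v^{-s})` has a pole at
`s = i + 1`. -/
def IsSquare (X : Variety K) (i : ℕ) (B : HeightOneSpectrum (𝓞 K) → ℂ[X]) : Prop :=
  (∀ᶠ v in cofinite, ∃ α : Fin (X.betti i) → ℂ, IsFrobenius X.eqs X.dim i v α ∧
    ∀ z : ℂ, (B v).eval z = ∏ j, ∏ l, (1 - α j * α l * z)) ∧
  ∀ v, (B v).eval ((Ideal.absNorm v.asIdeal : ℂ) ^ (-edgePoint (2 * i) 0)) ≠ 0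

theorem nm_ne (v : HeightOneSpectrum (𝓞 K)) : ((Ideal.absNorm v.asIdeal : ℕ) : ℂ) ≠ 0 := by
  exact_mod_cast (absNorm_pos v.ne_bot).ne'

theorem shiftB_edge (i : ℕ) (τ : ℝ) (B : HeightOneSpectrum (𝓞 K) → ℂ[X])
    (v : HeightOneSpectrum (𝓞 K)) :
    (shiftB τ B v).eval ((Ideal.absNorm v.asIdeal : ℂ) ^ (-((i : ℂ) / 2 + 1))) =
      (B v).eval ((Ideal.absNorm v.asIdeal : ℂ) ^ (-edgePoint i τ)) := by
  rw [shiftB_eval, ← Complex.cpow_add _ _ (nm_ne v)]
  congr 2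
  unfold edgePoint
  ring

/-- the function on the edge line at the height `τ` is the one of `ρ ⊗ | |^{iτ}` at the height zero -/
theorem tensor_shift {X : Variety K} {i : ℕ} {ρ : WRep K} {τ : ℝ}
    {B : HeightOneSpectrum (𝓞 K) → ℂ[X]} (h : IsTensorAt X i ρ τ B) :
    IsTensor X i (shift ρ τ) (shiftB τ B) := by
  obtain ⟨⟨M, hM⟩, h0⟩ := h
  refine ⟨⟨M, ?_⟩, fun v => ?_⟩
  · filter_upwards [hM] with v hv
    obtain ⟨α, γ, h1, h2, h3, h4⟩ := hv
    refine ⟨α, fun l => ((Ideal.absNorm v.asIdeal : ℕ) : ℂ) ^ (-(τ * I)) * γ l, h1, fun l => ?_,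
      ?_, fun z => ?_⟩
    · rw [norm_mul, norm_unr τ (absNorm_pos v.ne_bot), h2, one_mul]
    · rw [← Finset.mul_sum, h3, shift_trace]
    · rw [shiftB_eval, h4]
      refine Finset.prod_congr rfl fun j _ => Finset.prod_congr rfl fun l _ => ?_
      ring
  · rw [shiftB_edge]
    exact h0 v

/-- the norm `EH(T²)` is the size of the L-function of `H^i(X) ⊗ H^i(X)` -/
theorem square_size {X : Variety K} {i : ℕ} (hi : i ≤ 2 * X.dim)
    {B : HeightOneSpectrum (𝓞 K) → ℂ[X]} (h : IsSquare X i B) :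
    (∀ᶠ ε : ℝ in 𝓝[>] 0, LFun B (edgePoint (2 * i) 0 + ε) ≠ 0) ∧
    (fun ε => Pool.Agent.W353.EF.size (2 * i) B ε * LL ε - EH K ε (fun x => TV X i (vx x) ^ 2))
      =o[𝓝[>] 0] LL := by
  obtain ⟨hM, h0⟩ := h
  have e0 : edgePoint (2 * i) 0 = (((2 * i : ℕ) : ℂ) / 2 + 1) := by
    unfold edgePoint
    push_cast
    ring
  have h1 := size_H (K := K) (ι := Fin (X.betti i) × Fin (X.betti i)) (i := 2 * i) B
    (fun v => TV X i v ^ 2) (by
      filter_upwards [hM] with v hv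
      obtain ⟨α, h1, h4⟩ := hv
      have h1' : Eig X.eqs X.dim i v α := h1
      have hq : (0 : ℝ) < nm K v := by
        have := two_le_nm v
        exact_mod_cast (by omega : 0 < nm K v)
      have hq' : ((nm K v : ℕ) : ℂ) ≠ 0 := by exact_mod_cast hq.ne'
      refine ⟨fun l => α l.1 * α l.2, fun l => ?_, ?_, fun z => ?_⟩
      · have n1 : ‖α l.1‖ = (nm K v : ℝ) ^ ((i : ℝ) / 2) := h1'.norm l.1
        have n2 : ‖α l.2‖ = (nm K v : ℝ) ^ ((i : ℝ) / 2) := h1'.norm l.2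
        rw [norm_mul, n1, n2, ← Real.rpow_add hq]
        congr 1
        push_cast
        ring
      · have e1 := TV_eq X hi h1
        have e2 : ∑ l : Fin (X.betti i) × Fin (X.betti i), α l.1 * α l.2 =
            (∑ j, α j) * ∑ j, α j := by
          rw [Finset.sum_mul_sum, ← Finset.univ_product_univ, Finset.sum_product]
        have e3 : ((nm K v : ℕ) : ℂ) ^ (-(((2 * i : ℕ) : ℂ) / 2)) =
            ((nm K v : ℕ) : ℂ) ^ (-((i : ℂ) / 2)) * ((nm K v : ℕ) : ℂ) ^ (-((i : ℂ) / 2)) := by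
          rw [← Complex.cpow_add _ _ hq']
          congr 1
          push_cast
          ring
        have e4 : (∑ j, α j) * (∑ j, α j) * ((nm K v : ℕ) : ℂ) ^ (-(((2 * i : ℕ) : ℂ) / 2)) =
            ((TV X i v ^ 2 : ℝ) : ℂ) := by
          rw [e3]
          push_cast
          rw [e1]
          ring
        rw [e2, e4, Complex.ofReal_re]
      · rw [h4, ← Finset.univ_product_univ, Finset.prod_product]) (fun v => by
        rw [← e0]; exact h0 v)
    (D := (X.betti i : ℝ) ^ 2) (fun x => by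
      rw [abs_pow]
      exact pow_le_pow_left₀ (abs_nonneg _) (abs_TV X i _) 2)
  rw [e0]
  exact h1

/-- **The inequality, with the size of the square.** -/
theorem bessel2 {X : Variety K} {i : ℕ} (hi : i ≤ 2 * X.dim) {κ : Type} [Fintype κ]
    {ρ : κ → WRep K} {B : κ → HeightOneSpectrum (𝓞 K) → ℂ[X]}
    (hB : ∀ k, IsTensor X i (ρ k) (B k)) {B₂ : HeightOneSpectrum (𝓞 K) → ℂ[X]}
    (hB₂ : IsSquare X i B₂) (c : κ → ℝ) {η : ℝ} (hη : 0 < η) :
    ∀ᶠ ε : ℝ in 𝓝[>] 0, (∑ k, c k * Pool.Agent.W353.EF.size i (B k) ε) ^ 2 ≤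
      Pool.Agent.W353.EF.size (2 * i) B₂ ε *
        (∑ k, ∑ l, c k * c l * (ρ k).inner (ρ l)) + η := by
  classical
  have hQ : StNvq := Pool.Agent.N134.HS.t_nvq
  set G : ℝ := ∑ k, ∑ l, c k * c l * ((ρ k).inner (ρ l) : ℝ) with hG
  set W : HX K → ℂ := fun x => ∑ k, (c k : ℂ) * (ρ k).tH x with hW
  have hWb : ∀ x, ‖W x‖ ≤ ∑ k, |c k| * (ρ k).bd := by
    intro x
    refine (norm_sum_le _ _).trans (Finset.sum_le_sum fun k _ => ?_)
    rw [norm_mul, Complex.norm_real, Real.norm_eq_abs]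
    exact mul_le_mul_of_nonneg_left ((ρ k).norm_tH_le x) (abs_nonneg _)
  set bw : ℝ := ∑ k, |c k| * (ρ k).bd with hbw
  have hT : ∀ x : HX K, |TV X i (vx x)| ≤ X.betti i := fun x => abs_TV X i _
  have hWre : ∀ x, |(W x).re| ≤ bw := fun x => (Complex.abs_re_le_norm _).trans (hWb x)
  -- the four functions
  set S : ℝ → ℝ := fun ε => ∑ k, c k * Pool.Agent.W353.EF.size i (B k) ε with hS
  set v : ℝ → ℝ := Pool.Agent.W353.EF.size (2 * i) B₂ with hv
  set u : ℝ → ℝ := fun ε => EH K ε (fun x => TV X i (vx x) * (W x).re) with hu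
  set v' : ℝ → ℝ := fun ε => EH K ε (fun x => TV X i (vx x) ^ 2) with hv'
  set w : ℝ → ℝ := fun ε => EH K ε (fun x => ‖W x‖ ^ 2) with hw
  have hL0 : ∀ᶠ ε : ℝ in 𝓝[>] 0, 0 < LL ε := LL_tendsto.eventually_gt_atTop 0
  have hε0 : ∀ᶠ ε : ℝ in 𝓝[>] 0, 0 < ε := self_mem_nhdsWithin
  -- S
  have f1 : Tendsto (fun ε => S ε - u ε / LL ε) (𝓝[>] 0) (𝓝 0) := by
    have h4 := finset_isLittleO (Finset.univ : Finset κ)
      (fun k _ => (tensor_size hi (hB k)).2.const_mul_left (c k))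
    have h5 : (fun ε => S ε * LL ε - u ε) =o[𝓝[>] 0] LL := by
      refine h4.congr' ?_ (EventuallyEq.refl _ _)
      filter_upwards [hε0] with ε hε
      have e1 : (fun x => TV X i (vx x) * (W x).re) =
          fun x => ∑ k, c k * (TV X i (vx x) * ((ρ k).tH x).re) := by
        funext x
        rw [hW]
        simp only
        rw [Complex.re_sum, Finset.mul_sum]
        refine Finset.sum_congr rfl fun k _ => ?_
        rw [Complex.re_ofReal_mul]
        ring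
      rw [hu, hS]
      simp only
      rw [e1, EH_sum hε Finset.univ (fun k x => c k * (TV X i (vx x) * ((ρ k).tH x).re))
        (fun k => |c k| * (X.betti i * (ρ k).bd)) (fun k _ x => by
          rw [abs_mul, abs_mul]
          exact mul_le_mul_of_nonneg_left (mul_le_mul (hT x)
            ((Complex.abs_re_le_norm _).trans ((ρ k).norm_tH_le x)) (abs_nonneg _)
            (Nat.cast_nonneg _)) (abs_nonneg _)), Finset.sum_mul, ← Finset.sum_sub_distrib]
      refine Finset.sum_congr rfl fun k _ => ?_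
      rw [EH_const_mul]
      ring
    refine h5.tendsto_div_nhds_zero.congr' ?_
    filter_upwards [hL0] with ε h
    rw [sub_div, mul_div_cancel_right₀ _ h.ne']
  -- v
  have f2 : Tendsto (fun ε => v ε - v' ε / LL ε) (𝓝[>] 0) (𝓝 0) := by
    refine (square_size hi hB₂).2.tendsto_div_nhds_zero.congr' ?_
    filter_upwards [hL0] with ε h
    rw [sub_div, mul_div_cancel_right₀ _ h.ne']
  -- w
  have f3 : Tendsto (fun ε => w ε / LL ε) (𝓝[>] 0) (𝓝 G) := by
    have h4 := HasGram.sum (K := K) (Finset.univ : Finset κ) Finset.univ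
      (fun k _ => (ρ k).bdd) (fun k _ => (ρ k).bdd) c c (fun k _ l _ => WRep.gram hQ (ρ k) (ρ l))
    have h5 : (fun ε => w ε - G * LL ε) =o[𝓝[>] 0] LL := by
      unfold HasGram at h4
      refine h4.congr_left fun ε => ?_
      rw [hw]
      simp only
      congr 2
      funext x
      rw [Complex.mul_conj, Complex.ofReal_re, Complex.normSq_eq_norm_sq]
    have h6 := h5.tendsto_div_nhds_zero.add_const G
    rw [zero_add] at h6
    refine h6.congr' ?_
    filter_upwards [hL0] with ε h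
    field_simp
    ring
  have hv'0 : ∀ ε, 0 ≤ v' ε := fun ε => EH_nonneg (fun x => sq_nonneg _) ε
  have hw0 : ∀ ε, 0 ≤ w ε := fun ε => EH_nonneg (fun x => sq_nonneg _) ε
  have hv'b : ∀ᶠ ε : ℝ in 𝓝[>] 0, v' ε / LL ε ≤ (X.betti i : ℝ) ^ 2 + 1 := by
    have h4 : Tendsto (fun ε => (X.betti i : ℝ) ^ 2 * ((sysH K).lam ε / LL ε)) (𝓝[>] 0)
        (𝓝 ((X.betti i : ℝ) ^ 2 * 1)) := by
      refine Tendsto.const_mul _ ?_
      have h5 := (lamS_sub (sysH K)).tendsto_div_nhds_zero.add_const 1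
      rw [zero_add] at h5
      refine h5.congr' ?_
      filter_upwards [hL0] with ε h
      field_simp
      ring
    rw [mul_one] at h4
    filter_upwards [h4.eventually_lt_const (lt_add_one _), hL0, hε0] with ε h5 h6 h7
    refine le_trans ?_ h5.le
    rw [← mul_div_assoc]
    refine div_le_div_of_nonneg_right ?_ h6.le
    rw [← EH_one, ← EH_const_mul]
    refine EH_mono h7 (B := (X.betti i : ℝ) ^ 2) (B' := (X.betti i : ℝ) ^ 2) (fun x => ?_)
      (fun x => ?_) (fun x => ?_)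
    · rw [abs_pow]
      exact pow_le_pow_left₀ (abs_nonneg _) (hT x) 2
    · rw [mul_one, abs_of_nonneg (sq_nonneg _)]
    · rw [mul_one, ← sq_abs]
      exact pow_le_pow_left₀ (abs_nonneg _) (hT x) 2
  have hcs : ∀ᶠ ε : ℝ in 𝓝[>] 0, (u ε / LL ε) ^ 2 ≤ (v' ε / LL ε) * (w ε / LL ε) := by
    filter_upwards [hL0, hε0] with ε h1 h2
    have h3 := EH_cauchy h2 hT hWre
    have h4 : EH K ε (fun x => (W x).re ^ 2) ≤ w ε := by
      refine EH_mono h2 (B := bw ^ 2) (B' := bw ^ 2) (fun x => ?_) (fun x => ?_) (fun x => ?_)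
      · rw [abs_pow]
        exact pow_le_pow_left₀ (abs_nonneg _) (hWre x) 2
      · rw [abs_pow, abs_of_nonneg (norm_nonneg _)]
        exact pow_le_pow_left₀ (norm_nonneg _) (hWb x) 2
      · rw [← sq_abs]
        exact pow_le_pow_left₀ (abs_nonneg _) (Complex.abs_re_le_norm _) 2
    have h5 : u ε ^ 2 ≤ v' ε * w ε :=
      h3.trans (mul_le_mul_of_nonneg_left h4 (hv'0 ε))
    rw [div_pow, div_mul_div_comm, ← sq (LL ε)]
    exact div_le_div_of_nonneg_right h5 (sq_nonneg _)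
  -- boundedness
  have hG0 : 0 ≤ G := ge_of_tendsto f3 (by
    filter_upwards [hL0] with ε h
    exact div_nonneg (hw0 ε) h.le)
  set C : ℝ := (X.betti i : ℝ) ^ 2 + 1 with hC
  have hC0 : 0 < C := by positivity
  have hwb : ∀ᶠ ε : ℝ in 𝓝[>] 0, w ε / LL ε ≤ G + 1 :=
    (f3.eventually_lt_const (lt_add_one _)).mono fun ε h => h.le
  set D : ℝ := Real.sqrt (C * (G + 1)) with hD
  have hD0 : 0 ≤ D := Real.sqrt_nonneg _
  have hub : ∀ᶠ ε : ℝ in 𝓝[>] 0, |u ε / LL ε| ≤ D := by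
    filter_upwards [hcs, hv'b, hwb, hL0] with ε h1 h2 h3 h4
    refine Real.abs_le_sqrt (h1.trans ?_)
    exact mul_le_mul h2 h3 (div_nonneg (hw0 ε) h4.le) hC0.le
  set δ : ℝ := min 1 (η / (2 * D + 1 + G + C + 1)) with hδ
  have hδ0 : 0 < δ := lt_min one_pos (by positivity)
  have hδ1 : δ ≤ 1 := min_le_left _ _
  have hδ2 : δ * (2 * D + 1 + G + C + 1) ≤ η := by
    have : δ ≤ η / (2 * D + 1 + G + C + 1) := min_le_right _ _
    rwa [le_div_iff₀ (by positivity)] at this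
  have g1 : ∀ᶠ ε : ℝ in 𝓝[>] 0, |S ε - u ε / LL ε| < δ := by
    have := f1.abs
    rw [abs_zero] at this
    exact this.eventually_lt_const hδ0
  have g2 : ∀ᶠ ε : ℝ in 𝓝[>] 0, |v ε - v' ε / LL ε| < δ := by
    have := f2.abs
    rw [abs_zero] at this
    exact this.eventually_lt_const hδ0
  have g3 : ∀ᶠ ε : ℝ in 𝓝[>] 0, |w ε / LL ε - G| < δ := by
    have := (f3.sub_const G).abs
    rw [sub_self, abs_zero] at this
    exact this.eventually_lt_const hδ0
  filter_upwards [g1, g2, g3, hcs, hv'b, hub, hL0] with ε h1 h2 h3 h4 h5 h6 h7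
  have a1 := abs_lt.1 h1
  have a2 := abs_lt.1 h2
  have a3 := abs_lt.1 h3
  have a6 := abs_le.1 h6
  have a7 : 0 ≤ v' ε / LL ε := div_nonneg (hv'0 ε) h7.le
  set p := u ε / LL ε with hp
  set q := v' ε / LL ε with hq
  set r := w ε / LL ε with hr
  -- `S² ≤ p² + 2 D δ + δ²`
  have b1 : S ε ^ 2 ≤ p ^ 2 + 2 * D * δ + δ := by
    have e : S ε = p + (S ε - p) := by ring
    have h8 : (S ε - p) ^ 2 ≤ δ := by
      have : (S ε - p) ^ 2 ≤ δ ^ 2 := sq_le_sq' (by linarith) (by linarith)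
      nlinarith
    have h9 : p * (S ε - p) ≤ D * δ := by
      have : |p * (S ε - p)| ≤ D * δ := by
        rw [abs_mul]
        exact mul_le_mul h6 h1.le (abs_nonneg _) hD0
      exact (le_abs_self _).trans this
    rw [e]
    nlinarith
  have b2 : q * r ≤ q * G + C * δ := by
    have h8 : q * (r - G) ≤ C * δ := by
      calc q * (r - G) ≤ q * δ := mul_le_mul_of_nonneg_left (by linarith) a7
        _ ≤ C * δ := mul_le_mul_of_nonneg_right h5 hδ0.le
    nlinarith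
  have b3 : q * G ≤ v ε * G + δ * G := by
    have : q - v ε ≤ δ := by linarith
    nlinarith
  have b4 : S ε ^ 2 ≤ v ε * G + δ * (2 * D + 1 + G + C) := by nlinarith
  have b5 : δ * (2 * D + 1 + G + C) ≤ δ * (2 * D + 1 + G + C + 1) :=
    mul_le_mul_of_nonneg_left (by linarith) hδ0.le
  linarith

/-- the square has a nonnegative size in the limit -/
theorem square_nonneg {X : Variety K} {i : ℕ} (hi : i ≤ 2 * X.dim)
    {B : HeightOneSpectrum (𝓞 K) → ℂ[X]} (h : IsSquare X i B) {η : ℝ} (hη : 0 < η) :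
    ∀ᶠ ε : ℝ in 𝓝[>] 0, -η ≤ Pool.Agent.W353.EF.size (2 * i) B ε ∧
      Pool.Agent.W353.EF.size (2 * i) B ε ≤ (X.betti i : ℝ) ^ 2 + η := by
  have hL0 : ∀ᶠ ε : ℝ in 𝓝[>] 0, 0 < LL ε := LL_tendsto.eventually_gt_atTop 0
  have hε0 : ∀ᶠ ε : ℝ in 𝓝[>] 0, 0 < ε := self_mem_nhdsWithin
  have f2 : Tendsto (fun ε => Pool.Agent.W353.EF.size (2 * i) B ε -
      EH K ε (fun x => TV X i (vx x) ^ 2) / LL ε) (𝓝[>] 0) (𝓝 0) := by
    refine (square_size hi h).2.tendsto_div_nhds_zero.congr' ?_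
    filter_upwards [hL0] with ε h
    rw [sub_div, mul_div_cancel_right₀ _ h.ne']
  have h4 : Tendsto (fun ε => (X.betti i : ℝ) ^ 2 * ((sysH K).lam ε / LL ε)) (𝓝[>] 0)
      (𝓝 ((X.betti i : ℝ) ^ 2 * 1)) := by
    refine Tendsto.const_mul _ ?_
    have h5 := (lamS_sub (sysH K)).tendsto_div_nhds_zero.add_const 1
    rw [zero_add] at h5
    refine h5.congr' ?_
    filter_upwards [hL0] with ε h
    field_simp
    ring
  rw [mul_one] at h4
  have f3 := f2.abs
  rw [abs_zero] at f3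
  filter_upwards [f3.eventually_lt_const (half_pos hη),
    h4.eventually_lt_const (lt_add_of_pos_right _ (half_pos hη)), hL0, hε0] with ε h1 h5 h6 h7
  have a1 := abs_lt.1 h1
  have a2 : 0 ≤ EH K ε (fun x => TV X i (vx x) ^ 2) / LL ε :=
    div_nonneg (EH_nonneg (fun x => sq_nonneg _) ε) h6.le
  have a3 : EH K ε (fun x => TV X i (vx x) ^ 2) / LL ε ≤
      (X.betti i : ℝ) ^ 2 * ((sysH K).lam ε / LL ε) := by
    rw [← mul_div_assoc]
    refine div_le_div_of_nonneg_right ?_ h6.le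
    rw [← EH_one, ← EH_const_mul]
    have hT : ∀ x : HX K, |TV X i (vx x)| ≤ X.betti i := fun x => abs_TV X i _
    refine EH_mono h7 (B := (X.betti i : ℝ) ^ 2) (B' := (X.betti i : ℝ) ^ 2) (fun x => ?_)
      (fun x => ?_) (fun x => ?_)
    · rw [abs_pow]
      exact pow_le_pow_left₀ (abs_nonneg _) (hT x) 2
    · rw [mul_one, abs_of_nonneg (sq_nonneg _)]
    · rw [mul_one, ← sq_abs]
      exact pow_le_pow_left₀ (abs_nonneg _) (hT x) 2
  constructor <;> linarith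

/-- limits along ultrafilters -/
theorem ultra_lim (𝒰 : Ultrafilter ℝ) {u : ℝ → ℝ} {b : ℝ}
    (h : ∀ᶠ ε in (𝒰 : Filter ℝ), |u ε| ≤ b) : ∃ L : ℝ, Tendsto u (𝒰 : Filter ℝ) (𝓝 L) := by
  have h' : ∀ᶠ ε in (𝒰 : Filter ℝ), u ε ∈ Set.Icc (-b) b := by
    filter_upwards [h] with ε h1
    exact ⟨(abs_le.1 h1).1, (abs_le.1 h1).2⟩
  obtain ⟨L, -, hL⟩ := (isCompact_Icc (a := -b) (b := b)).ultrafilter_le_nhds (𝒰.map u) (by
    rw [Filter.le_principal_iff]
    exact h')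
  exact ⟨L, hL⟩

/-- **Bessel's inequality.** -/
theorem bessel_square {X : Variety K} {i : ℕ} (hi : i ≤ 2 * X.dim) {κ : Type} [Fintype κ]
    {ρ : κ → WRep K} (hirr : ∀ k, (ρ k).IsIrr) (horth : ∀ k l, k ≠ l → (ρ k).inner (ρ l) = 0)
    {B : κ → HeightOneSpectrum (𝓞 K) → ℂ[X]}
    (hB : ∀ k, IsTensor X i (ρ k) (B k)) {B₂ : HeightOneSpectrum (𝓞 K) → ℂ[X]}
    (hB₂ : IsSquare X i B₂) {η : ℝ} (hη : 0 < η) :
    ∀ᶠ ε : ℝ in 𝓝[>] 0, ∑ k, Pool.Agent.W353.EF.size i (B k) ε ^ 2 ≤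
      Pool.Agent.W353.EF.size (2 * i) B₂ ε + η := by
  classical
  by_contra hcon
  rw [Filter.not_eventually] at hcon
  set P : ℝ → Prop := fun ε => Pool.Agent.W353.EF.size (2 * i) B₂ ε + η ≤
    ∑ k, Pool.Agent.W353.EF.size i (B k) ε ^ 2 with hP
  have hcon' : ∃ᶠ ε in 𝓝[>] (0 : ℝ), P ε := hcon.mono fun ε h => (not_le.1 h).le
  have hne : (𝓝[>] (0 : ℝ) ⊓ 𝓟 {ε | P ε}).NeBot := Filter.frequently_iff_neBot.1 hcon'
  set 𝒰 : Ultrafilter ℝ := Ultrafilter.of (𝓝[>] (0 : ℝ) ⊓ 𝓟 {ε | P ε}) with h𝒰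
  have hle : (𝒰 : Filter ℝ) ≤ 𝓝[>] (0 : ℝ) ⊓ 𝓟 {ε | P ε} := Ultrafilter.of_le _
  have hl : (𝒰 : Filter ℝ) ≤ 𝓝[>] (0 : ℝ) := hle.trans inf_le_left
  have hPu : ∀ᶠ ε in (𝒰 : Filter ℝ), P ε := (hle.trans inf_le_right) (Filter.mem_principal_self _)
  have hv := fun η' (hη' : (0 : ℝ) < η') => hl (square_nonneg hi hB₂ hη')
  obtain ⟨ν, hν⟩ := ultra_lim 𝒰 (u := Pool.Agent.W353.EF.size (2 * i) B₂)
    (b := (X.betti i : ℝ) ^ 2 + 1) (by
      filter_upwards [hv 1 one_pos] with ε h1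
      rw [abs_le]
      have : 0 ≤ (X.betti i : ℝ) ^ 2 := sq_nonneg _
      exact ⟨by linarith [h1.1], h1.2⟩)
  have hν0 : 0 ≤ ν := by
    refine le_of_forall_pos_le_add fun η' hη' => ?_
    have h1 : ∀ᶠ ε in (𝒰 : Filter ℝ), -η' ≤ Pool.Agent.W353.EF.size (2 * i) B₂ ε := by
      filter_upwards [hv η' hη'] with ε h
      exact h.1
    have := ge_of_tendsto hν h1
    linarith
  have hb := fun (c : κ → ℝ) (η' : ℝ) (hη' : 0 < η') => hl (bessel2 hi hB hB₂ c hη')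
  have hz : ∀ k, ∃ L : ℝ, Tendsto (Pool.Agent.W353.EF.size i (B k)) (𝒰 : Filter ℝ) (𝓝 L) := by
    intro k
    refine ultra_lim 𝒰 (b := Real.sqrt ((X.betti i : ℝ) ^ 2 + 1 + 1)) ?_
    filter_upwards [hb (Pi.single k 1) 1 one_pos, hv 1 one_pos] with ε h1 h2
    rw [orth_sum hirr horth] at h1
    have e1 : ∑ j, (Pi.single k (1 : ℝ) : κ → ℝ) j * Pool.Agent.W353.EF.size i (B j) ε =
        Pool.Agent.W353.EF.size i (B k) ε := by
      rw [Finset.sum_eq_single k]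
      · rw [Pi.single_eq_same, one_mul]
      · intro j _ hj
        rw [Pi.single_eq_of_ne hj, zero_mul]
      · intro h; exact absurd (Finset.mem_univ k) h
    have e2 : ∑ j, (Pi.single k (1 : ℝ) : κ → ℝ) j ^ 2 * 1 = 1 := by
      rw [Finset.sum_eq_single k]
      · rw [Pi.single_eq_same]; norm_num
      · intro j _ hj
        rw [Pi.single_eq_of_ne hj]; norm_num
      · intro h; exact absurd (Finset.mem_univ k) h
    rw [e1, e2, mul_one] at h1
    refine Real.abs_le_sqrt (h1.trans ?_)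
    linarith [h2.2]
  choose ζ hζ using hz
  have h1 : (∑ k, ζ k * ζ k) ^ 2 ≤ ν * ∑ k, ζ k ^ 2 * 1 := by
    refine le_of_forall_pos_le_add fun η' hη' => ?_
    have h2 := hb ζ η' hη'
    have h3 : Tendsto (fun ε => (∑ k, ζ k * Pool.Agent.W353.EF.size i (B k) ε) ^ 2)
        (𝒰 : Filter ℝ) (𝓝 ((∑ k, ζ k * ζ k) ^ 2)) :=
      (tendsto_finsetSum _ fun k _ => (hζ k).const_mul _).pow 2
    have h4 : Tendsto (fun ε => Pool.Agent.W353.EF.size (2 * i) B₂ ε *
        (∑ k, ∑ l, ζ k * ζ l * ((ρ k).inner (ρ l) : ℝ)) + η') (𝒰 : Filter ℝ)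
        (𝓝 (ν * (∑ k, ∑ l, ζ k * ζ l * ((ρ k).inner (ρ l) : ℝ)) + η')) :=
      (hν.mul_const _).add_const _
    rw [orth_sum hirr horth] at h4
    refine le_of_tendsto_of_tendsto h3 h4 ?_
    filter_upwards [h2] with ε h5
    rwa [orth_sum hirr horth] at h5
  set s : ℝ := ∑ k, ζ k ^ 2 with hs
  have hs0 : 0 ≤ s := Finset.sum_nonneg fun k _ => sq_nonneg _
  have e1 : ∑ k, ζ k * ζ k = s := Finset.sum_congr rfl fun k _ => by ring
  have e2 : ∑ k, ζ k ^ 2 * 1 = s := Finset.sum_congr rfl fun k _ => by ring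
  rw [e1, e2] at h1
  have h2 : s ≤ ν := by
    rcases hs0.eq_or_lt with h3 | h3
    · rw [← h3]; exact hν0
    · have h4 : s * s ≤ ν * s := by rw [← sq]; exact h1
      exact le_of_mul_le_mul_right h4 h3
  have h3 : ν + η ≤ s := by
    have h4 : Tendsto (fun ε => ∑ k, Pool.Agent.W353.EF.size i (B k) ε ^ 2)
        (𝒰 : Filter ℝ) (𝓝 s) := tendsto_finsetSum _ fun k _ => (hζ k).pow 2
    exact le_of_tendsto_of_tendsto (hν.add_const η) h4 hPu
  linarith

end Pool.Agent.V8H25.Gov
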