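import Pool.Agent.V8H25.Gov.Line

/-!
# The virtual representation which governs the orders on the edge line
-/

set_option autoImplicit false
set_option linter.unusedSectionVars false

namespace Pool.Agent.V8H25.Gov

open NumberField Complex Filter Topology IsDedekindDomain Asymptotics Polynomial
open Pool.Agent.N172.HS
open Pool.Agent.W353.EF (IsFrobenius LFun)
open Pool.Agent.W353.TP (HX sysH LL LL_tendsto bdd_isLittleO lamS_sub)
open Pool.Agent.W353.NF (vx)
open Pool.Agent.W353.PV (Eig)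
open Pool.Agent.W540.BE (nm two_le_nm)
open Pool.Agent.W353.EH (edgePoint)
open scoped ComplexConjugate

variable {K : Type} [Field K] [NumberField K]

/-- The zero representation. -/
noncomputable def zeroRep (K : Type) [Field K] [NumberField K] : WRep K where
  r := 0
  F j := j.elim0
  fld j := j.elim0
  nf j := j.elim0
  alg j := j.elim0
  𝔣 j := j.elim0
  k j := j.elim0
  t j := j.elim0
  χ j := j.elim0
  hecke j := j.elim0
  c j := j.elim0

theorem zero_trace (v : HeightOneSpectrum (𝓞 K)) : (zeroRep K).trace v = 0 := by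
  unfold WRep.trace
  exact Finset.sum_eq_zero fun j _ => Fin.elim0 j

theorem inner_zero (ρ : WRep K) : ρ.inner (zeroRep K) = 0 := by
  unfold WRep.inner
  refine Finset.sum_eq_zero fun j _ => ?_
  exact Finset.sum_eq_zero fun l _ => Fin.elim0 l

theorem isPart_zero {X : Variety K} {i : ℕ} (hi : i ≤ 2 * X.dim) :
    IsPart X i (zeroRep K) (X.betti i) := by
  unfold IsPart
  filter_upwards [X.frob] with v hv
  obtain ⟨α, hα⟩ := hv i hi
  have h1' : Eig X.eqs X.dim i v α := hα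
  refine ⟨by rw [zero_trace]; rfl, α, α, hα, fun j => h1'.norm j, ?_⟩
  rw [zero_trace, mul_zero, zero_add]

/-- **Bessel's inequality for the orders.** -/
theorem orders_sq {X : Variety K} {i : ℕ} (hi : i ≤ 2 * X.dim) {κ : Type} [Fintype κ]
    {ρ : κ → WRep K} (hirr : ∀ k, (ρ k).IsIrr) (horth : ∀ k l, k ≠ l → (ρ k).inner (ρ l) = 0)
    {B : κ → HeightOneSpectrum (𝓞 K) → ℂ[X]} (hB : ∀ k, IsTensor X i (ρ k) (B k)) {r : κ → ℤ}
    (hr : ∀ k, Pool.Agent.Y149.Ord.HasOrder i (B k) (-(r k))) :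
    ∑ k, r k ^ 2 ≤ (X.betti i : ℤ) ^ 2 := by
  have h1 := tensor_order hi (isPart_zero hi) hB (fun k => (r k : ℝ)) hr
  rw [orth_sum hirr horth] at h1
  have e1 : ∑ k, (r k : ℝ) * (((-(r k) : ℤ) : ℝ) + (((ρ k).inner (zeroRep K) : ℤ) : ℝ)) =
      -∑ k, (r k : ℝ) ^ 2 := by
    rw [← Finset.sum_neg_distrib]
    refine Finset.sum_congr rfl fun k _ => ?_
    rw [inner_zero]
    push_cast
    ring
  have e2 : ∑ k, (r k : ℝ) ^ 2 * 1 = ∑ k, (r k : ℝ) ^ 2 :=
    Finset.sum_congr rfl fun k _ => mul_one _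
  rw [e1, e2, neg_sq] at h1
  set s : ℝ := ∑ k, (r k : ℝ) ^ 2 with hs
  have hs0 : 0 ≤ s := Finset.sum_nonneg fun k _ => sq_nonneg _
  have h2 : s ≤ (X.betti i : ℝ) ^ 2 := by
    rcases hs0.eq_or_lt with h3 | h3
    · rw [← h3]; positivity
    · have h4 : s * s ≤ (X.betti i : ℝ) ^ 2 * s := by rw [← sq]; exact h1
      exact le_of_mul_le_mul_right h4 h3
  rw [hs] at h2
  exact_mod_cast h2

/-- Bessel's inequality for the orders, with the order of the square. -/
theorem orders_sq_two {X : Variety K} {i : ℕ} (hi : i ≤ 2 * X.dim) {κ : Type} [Fintype κ]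
    {ρ : κ → WRep K} (hirr : ∀ k, (ρ k).IsIrr) (horth : ∀ k l, k ≠ l → (ρ k).inner (ρ l) = 0)
    {B : κ → HeightOneSpectrum (𝓞 K) → ℂ[X]} (hB : ∀ k, IsTensor X i (ρ k) (B k)) {r : κ → ℤ}
    (hr : ∀ k, Pool.Agent.Y149.Ord.HasOrder i (B k) (-(r k)))
    {B₂ : HeightOneSpectrum (𝓞 K) → ℂ[X]} (hB₂ : IsSquare X i B₂) {r₂ : ℤ}
    (hr₂ : Tendsto (Pool.Agent.W353.EF.size (2 * i) B₂) (𝓝[>] 0) (𝓝 (r₂ : ℝ))) :
    ∑ k, r k ^ 2 ≤ r₂ := by
  have hlim : ∀ k, Tendsto (Pool.Agent.W353.EF.size i (B k)) (𝓝[>] 0) (𝓝 (r k : ℝ)) := by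
    intro k
    have h := Pool.Agent.Y149.Ord.tendsto_size (hr k)
    rwa [Int.cast_neg, neg_neg] at h
  have h1 : (∑ k, (r k : ℝ) * r k) ^ 2 ≤ r₂ * ∑ k, (r k : ℝ) ^ 2 * 1 := by
    refine le_of_forall_pos_le_add fun η hη => ?_
    have h2 := bessel2 hi hB hB₂ (fun k => (r k : ℝ)) hη
    rw [orth_sum hirr horth] at h2
    have h3 : Tendsto (fun ε => (∑ k, (r k : ℝ) * Pool.Agent.W353.EF.size i (B k) ε) ^ 2)
        (𝓝[>] 0) (𝓝 ((∑ k, (r k : ℝ) * r k) ^ 2)) :=
      (tendsto_finsetSum _ fun k _ => (hlim k).const_mul _).pow 2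
    exact le_of_tendsto_of_tendsto h3 ((hr₂.mul_const _).add_const η) h2
  have h0 : (0 : ℝ) ≤ r₂ := by
    refine le_of_forall_pos_le_add fun η hη => ?_
    have := ge_of_tendsto hr₂ ((square_nonneg hi hB₂ hη).mono fun ε h => h.1)
    linarith
  set s : ℝ := ∑ k, (r k : ℝ) ^ 2 with hs
  have e1 : ∑ k, (r k : ℝ) * r k = s := Finset.sum_congr rfl fun k _ => by ring
  have e2 : ∑ k, (r k : ℝ) ^ 2 * 1 = s := Finset.sum_congr rfl fun k _ => mul_one _
  rw [e1, e2] at h1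
  have hs0 : 0 ≤ s := Finset.sum_nonneg fun k _ => sq_nonneg _
  have h2 : s ≤ r₂ := by
    rcases hs0.eq_or_lt with h3 | h3
    · rw [← h3]; exact h0
    · have h4 : s * s ≤ r₂ * s := by rw [← sq]; exact h1
      exact le_of_mul_le_mul_right h4 h3
  rw [hs] at h2
  exact_mod_cast h2

/-- equal up to the sign: the orders agree -/
theorem order_sign {X : Variety K} {i : ℕ} (hi : i ≤ 2 * X.dim) {ρ σ : WRep K} (hρ : ρ.IsIrr)
    (hσ : σ.IsIrr) (h : ρ.inner σ ≠ 0) {B B' : HeightOneSpectrum (𝓞 K) → ℂ[X]}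
    (hB : IsTensor X i ρ B) (hB' : IsTensor X i σ B') {r r' : ℤ}
    (hr : Pool.Agent.Y149.Ord.HasOrder i B (-r)) (hr' : Pool.Agent.Y149.Ord.HasOrder i B' (-r')) :
    r = ρ.inner σ * r' := by
  obtain ⟨h1, -⟩ := irr_dichotomy hρ hσ h
  set s : ℤ := ρ.inner σ with hs
  have hss : s * s = 1 := by rcases h1 with h1 | h1 <;> rw [h1] <;> norm_num
  have h2 := tensor_order hi (isPart_zero hi) (κ := Fin 2) (ρ := ![ρ, σ]) (B := ![B, B'])
    (fun k => by
      refine Fin.cases ?_ (fun k => ?_) k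
      · exact hB
      · refine Fin.cases ?_ (fun k => k.elim0) k
        exact hB') ![1, -(s : ℝ)] (r := ![-r, -r']) (fun k => by
      refine Fin.cases ?_ (fun k => ?_) k
      · exact hr
      · refine Fin.cases ?_ (fun k => k.elim0) k
        exact hr')
  simp only [Fin.sum_univ_two, Matrix.cons_val_zero, Matrix.cons_val_one, inner_zero,
    Int.cast_zero, add_zero] at h2
  have e1 : ρ.inner ρ = 1 := hρ
  have e2 : σ.inner σ = 1 := hσ
  have e3 : σ.inner ρ = s := by rw [WRep.inner_comm]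
  rw [e1, e2, e3, ← hs] at h2
  have h3 : ((1 * ((-r : ℤ) : ℝ) + -(s : ℝ) * ((-r' : ℤ) : ℝ)) : ℝ) ^ 2 ≤ 0 := by
    refine h2.trans (le_of_eq ?_)
    have hss' : (s : ℝ) * s = 1 := by exact_mod_cast hss
    push_cast
    linear_combination (-(X.betti i : ℝ) ^ 2) * hss'
  have h4 : (1 * ((-r : ℤ) : ℝ) + -(s : ℝ) * ((-r' : ℤ) : ℝ)) = 0 := by
    have := le_antisymm h3 (sq_nonneg _)
    exact pow_eq_zero_iff two_ne_zero |>.1 this
  push_cast at h4
  have h5 : (r : ℝ) = ((s * r' : ℤ) : ℝ) := by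
    push_cast
    linarith
  exact_mod_cast h5

/-- **The governing representation.** -/
theorem governing {X : Variety K} {i : ℕ} (hi : i ≤ 2 * X.dim) :
    ∃ θ : WRep K, θ.inner θ ≤ (X.betti i : ℤ) ^ 2 ∧
      (∀ (B₂ : HeightOneSpectrum (𝓞 K) → ℂ[X]) (r₂ : ℤ), IsSquare X i B₂ →
        Tendsto (Pool.Agent.W353.EF.size (2 * i) B₂) (𝓝[>] 0) (𝓝 (r₂ : ℝ)) →
        θ.inner θ ≤ r₂) ∧
      (∀ ρ : WRep K, ρ.IsIrr → ∀ (B : HeightOneSpectrum (𝓞 K) → ℂ[X]) (r : ℤ),
        IsTensor X i ρ B → Pool.Agent.Y149.Ord.HasOrder i B (-r) → r = ρ.inner θ) ∧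
      ∃ (n : ℕ) (σ : Fin n → WRep K) (r : Fin n → ℤ), θ = comb r σ ∧ ∀ k, (σ k).IsIrr ∧
        ∃ B : HeightOneSpectrum (𝓞 K) → ℂ[X], IsTensor X i (σ k) B ∧
          Pool.Agent.Y149.Ord.HasOrder i B (-(r k)) ∧ r k ≠ 0 := by
  classical
  obtain ⟨n, σ, -, h2, h3, h4⟩ := exists_max (W := WRep K)
    (fun ρ => ρ.IsIrr ∧ ∃ (B : HeightOneSpectrum (𝓞 K) → ℂ[X]) (r : ℤ), IsTensor X i ρ B ∧
      Pool.Agent.Y149.Ord.HasOrder i B (-r) ∧ r ≠ 0)
    (fun ρ σ => ρ.inner σ = 0) (fun ρ σ h => by rw [WRep.inner_comm]; exact h)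
    (X.betti i ^ 2) (by
      intro n σ hbad horth
      choose hirr B r hB hr hr0 using hbad
      have h5 := orders_sq hi hirr horth hB hr
      have h6 : (n : ℤ) ≤ ∑ k, r k ^ 2 := by
        calc (n : ℤ) = ∑ _k : Fin n, 1 := by simp
          _ ≤ ∑ k, r k ^ 2 := Finset.sum_le_sum fun k _ => by
            have : 0 < r k ^ 2 := by
              have := hr0 k
              positivity
            omega
      exact_mod_cast h6.trans h5)
  choose hirr B r hB hr hr0 using h2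
  have hself : ∀ k, (σ k).inner (comb r σ) = r k := by
    intro k
    rw [inner_comb, Finset.sum_eq_single k]
    · have : (σ k).inner (σ k) = 1 := hirr k
      rw [this, mul_one]
    · intro l _ hl
      rw [h3 k l hl.symm, mul_zero]
    · intro h; exact absurd (Finset.mem_univ k) h
  have hnorm : (comb r σ).inner (comb r σ) = ∑ k, r k ^ 2 := by
    rw [inner_comb]
    refine Finset.sum_congr rfl fun k _ => ?_
    rw [WRep.inner_comm, hself]
    ring
  refine ⟨comb r σ, ?_, fun B₂ r₂ hB₂ hr₂ => ?_, fun ρ hρ B' r' hB' hr' => ?_,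
    n, σ, r, rfl, fun k => ⟨hirr k, B k, hB k, hr k, hr0 k⟩⟩
  · rw [hnorm]
    exact orders_sq hi hirr h3 hB hr
  · rw [hnorm]
    exact orders_sq_two hi hirr h3 hB hr hB₂ hr₂
  · by_cases hort : ∀ k, ρ.inner (σ k) = 0
    · have h5 := h4 ρ hort
      have h6 : r' = 0 := by
        by_contra hcon
        exact h5 ⟨hρ, B', r', hB', hr', hcon⟩
      rw [h6, inner_comb]
      exact (Finset.sum_eq_zero fun k _ => by rw [hort k, mul_zero]).symm
    · push Not at hort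
      obtain ⟨k, hk⟩ := hort
      have h5 := order_sign hi hρ (hirr k) hk hB' (hB k) hr' (hr k)
      rw [h5, (irr_dichotomy hρ (hirr k) hk).2 (comb r σ), hself]

end Pool.Agent.V8H25.Gov
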