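import Pool.Agent.V8H25.Gov.Main

/-!
# Products with varieties of CM type on the edge line
-/

set_option autoImplicit false
set_option linter.unusedSectionVars false

namespace Pool.Agent.V8H25.Gov

open NumberField Complex Filter Topology IsDedekindDomain Asymptotics Polynomial
open Pool.Agent.N172.HS
open Pool.Agent.W353.EF (IsFrobenius LFun)
open Pool.Agent.W353.TP (HX sysH LL LL_tendsto bdd_isLittleO lamS_sub)
open Pool.Agent.W353.NF (vx)
open Pool.Agent.W353.PV (Eig)
open Pool.Agent.W540.BE (nm two_le_nm)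
open Pool.Agent.W353.EH (edgePoint)
open scoped ComplexConjugate

variable {K : Type} [Field K] [NumberField K]

/-- The polynomials `B v` are the Euler factors of `L(H^n(X × Y), s)`, by the formula of Künneth, for
almost all primes `v`; at the other primes `B v` is an arbitrary polynomial, and no factor
`1 / B_v(q_v^{-s})` has a pole at `s = n/2 + 1 + iτ`. -/
def IsProductAt (X Y : Variety K) (n : ℕ) (τ : ℝ) (B : HeightOneSpectrum (𝓞 K) → ℂ[X]) : Prop :=
  (∀ᶠ v in cofinite, ∃ (α : ∀ a, Fin (X.betti a) → ℂ) (β : ∀ b, Fin (Y.betti b) → ℂ),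
    (∀ a ≤ 2 * X.dim, IsFrobenius X.eqs X.dim a v (α a)) ∧
    (∀ b ≤ 2 * Y.dim, IsFrobenius Y.eqs Y.dim b v (β b)) ∧
    ∀ z : ℂ, (B v).eval z = ∏ c ∈ degrees X Y n, ∏ j, ∏ l, (1 - α c.1 j * β c.2 l * z)) ∧
  ∀ v, (B v).eval ((Ideal.absNorm v.asIdeal : ℂ) ^ (-edgePoint n τ)) ≠ 0

/-- The order of `L(H^i(X) ⊗ ρ, s)` at the point `s = i/2 + 1 + iτ` exists; for example, this function
has a meromorphic continuation to a neighbourhood of the point. -/
def OrderExists (X : Variety K) (i : ℕ) (ρ : WRep K) (τ : ℝ) : Prop :=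
  ∃ (B : HeightOneSpectrum (𝓞 K) → ℂ[X]) (r : ℤ), IsTensorAt X i ρ τ B ∧ HasOrder i τ B (-r)

/-- The orders of the functions `L(H^a(X) ⊗ π, s)` at `s = a/2 + 1 + iτ` exist for all the irreducible
constituents `π` of `H^b(Y)`, `a + b = n`. -/
def OrdersExist (X : Variety K) (Y : CMVariety K) (n : ℕ) (τ : ℝ) : Prop :=
  ∀ c ∈ degrees X Y.toVariety n,
    (Y.triv c.2 ≠ 0 → OrderExists X c.1 (WRep.one K) τ) ∧
    ∀ j, OrderExists X c.1 (Y.π c.2 j) τ

/-- The number `∑_{a + b = n} ⟨H^b(Y) ⊗ | |^{iτ}, θ_a⟩`. -/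
noncomputable def pairing (X : Variety K) (Y : CMVariety K) (θ : ℕ → WRep K) (n : ℕ) (τ : ℝ) : ℤ :=
  ∑ c ∈ degrees X Y.toVariety n,
    (Y.triv c.2 * (shift (WRep.one K) τ).inner (θ c.1) +
      ∑ j, (shift (Y.π c.2 j) τ).inner (θ c.1))

/-- **The size of the L-function of a product on the edge line.** -/
theorem product_size_line {X : Variety K} {Y : CMVariety K} {n : ℕ} {τ : ℝ}
    {B : HeightOneSpectrum (𝓞 K) → ℂ[X]} (hB : IsProductAt X Y.toVariety n τ B) :
    (∀ᶠ ε : ℝ in 𝓝[>] 0, LFun B (edgePoint n τ + ε) ≠ 0) ∧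
    (fun ε => Pool.Agent.W353.EH.size n τ B ε * LL ε -
      EH K ε (fun x => ∑ c ∈ degrees X Y.toVariety n,
      TV X c.1 (vx x) * (Y.triv c.2 * ((shift (WRep.one K) τ).tH x).re +
        ∑ j, ((shift (Y.π c.2 j) τ).tH x).re))) =o[𝓝[>] 0] LL := by
  classical
  obtain ⟨hM, hB0⟩ := hB
  have hrev : ∀ v : HeightOneSpectrum (𝓞 K), (shift (WRep.one K) τ).trace v =
      ((nm K v : ℕ) : ℂ) ^ (-(τ * I)) := by
    intro v
    rw [shift_trace, WRep.one_trace, mul_one]
    rfl
  have h := size_H (K := K)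
    (ι := Σ c : {c // c ∈ degrees X Y.toVariety n}, Fin (X.betti c.1.1) × Fin (Y.betti c.1.2))
    (i := n) (shiftB τ B)
    (fun v => ∑ c ∈ degrees X Y.toVariety n,
      TV X c.1 v * ((Y.triv c.2 : ℂ) * (shift (WRep.one K) τ).trace v +
        ∑ j, (shift (Y.π c.2 j) τ).trace v).re) (by
      filter_upwards [hM, Y.trace] with v hv hY
      obtain ⟨α, β, h1, h2, h3⟩ := hv
      have hn0 : 0 < nm K v := by
        have := two_le_nm v
        omega
      have hq : (0 : ℝ) < nm K v := by exact_mod_cast hn0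
      have hq' : ((nm K v : ℕ) : ℂ) ≠ 0 := by exact_mod_cast hq.ne'
      set u : ℂ := ((nm K v : ℕ) : ℂ) ^ (-(τ * I)) with hu
      have hu1 : ‖u‖ = 1 := norm_unr τ hn0
      refine ⟨fun l => α l.1.1.1 l.2.1 * β l.1.1.2 l.2.2 * u, fun l => ?_, ?_, fun z => ?_⟩
      · obtain ⟨c, j, l⟩ := l
        obtain ⟨c1, c2, c3⟩ := mem_degrees.1 c.2
        have e1 : ‖α c.1.1 j‖ = (nm K v : ℝ) ^ ((c.1.1 : ℝ) / 2) :=
          Eig.norm (X := X.eqs) (d := X.dim) (h1 _ c2) j
        have e2 : ‖β c.1.2 l‖ = (nm K v : ℝ) ^ ((c.1.2 : ℝ) / 2) :=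
          Eig.norm (X := Y.eqs) (d := Y.dim) (h2 _ c3) l
        have hn : (n : ℝ) = (c.1.1 : ℝ) + c.1.2 := by exact_mod_cast c1.symm
        rw [norm_mul, hu1, mul_one, norm_mul, e1, e2, ← Real.rpow_add hq]
        congr 1
        rw [hn]
        ring
      · rw [Fintype.sum_sigma, Finset.sum_mul, Complex.re_sum, ← Finset.sum_coe_sort]
        refine Finset.sum_congr rfl fun c _ => ?_
        obtain ⟨c1, c2, c3⟩ := mem_degrees.1 c.2
        have e1 := TV_eq X c2 (h1 _ c2)
        obtain ⟨β', h4, h5⟩ := hY _ c3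
        have e2 : ∑ l, β c.1.2 l = ∑ l, β' l :=
          congrArg Multiset.sum (Eig.unique' (X := Y.eqs) (d := Y.dim) c3 (h2 _ c3) h4)
        have e3 : ∑ l : Fin (X.betti c.1.1) × Fin (Y.betti c.1.2),
            α c.1.1 l.1 * β c.1.2 l.2 * u = (∑ j, α c.1.1 j) * (∑ l, β c.1.2 l) * u := by
          rw [Finset.sum_mul_sum, ← Finset.univ_product_univ, Finset.sum_product, Finset.sum_mul]
          refine Finset.sum_congr rfl fun j _ => ?_
          rw [Finset.sum_mul]
        have e4 : ((nm K v : ℕ) : ℂ) ^ (-((n : ℂ) / 2)) =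
            ((nm K v : ℕ) : ℂ) ^ (-((c.1.1 : ℂ) / 2)) *
              ((nm K v : ℕ) : ℂ) ^ (-((c.1.2 : ℂ) / 2)) := by
          have hn : (n : ℂ) = (c.1.1 : ℂ) + c.1.2 := by exact_mod_cast c1.symm
          rw [← Complex.cpow_add _ _ hq', hn]
          congr 1
          ring
        have e5 : (∑ l, β c.1.2 l) * ((nm K v : ℕ) : ℂ) ^ (-((c.1.2 : ℂ) / 2)) =
            Y.triv c.1.2 + ∑ j, (Y.π c.1.2 j).trace v := by
          have e6 : ((Ideal.absNorm v.asIdeal : ℕ) : ℂ) = ((nm K v : ℕ) : ℂ) := rfl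
          rw [e2, h5, e6, mul_right_comm, ← Complex.cpow_add _ _ hq', add_neg_cancel,
            Complex.cpow_zero, one_mul]
        have e8 : (Y.triv c.1.2 : ℂ) * (shift (WRep.one K) τ).trace v +
            ∑ j, (shift (Y.π c.1.2 j) τ).trace v =
            u * (Y.triv c.1.2 + ∑ j, (Y.π c.1.2 j).trace v) := by
          rw [hrev, mul_add, Finset.mul_sum, mul_comm u]
          congr 1
          refine Finset.sum_congr rfl fun j _ => ?_
          rw [shift_trace]
          rfl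
        have e7 : (∑ l : Fin (X.betti c.1.1) × Fin (Y.betti c.1.2),
            α c.1.1 l.1 * β c.1.2 l.2 * u) * ((nm K v : ℕ) : ℂ) ^ (-((n : ℂ) / 2)) =
            ((TV X c.1.1 v : ℝ) : ℂ) * ((Y.triv c.1.2 : ℂ) * (shift (WRep.one K) τ).trace v +
            ∑ j, (shift (Y.π c.1.2 j) τ).trace v) := by
          rw [e3, e4, e1, e8, ← e5]
          ring
        rw [← Complex.re_ofReal_mul, ← e7]
      · rw [shiftB_eval, h3, Fintype.prod_sigma, ← Finset.prod_coe_sort]
        refine Finset.prod_congr rfl fun c _ => ?_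
        rw [← Finset.univ_product_univ, Finset.prod_product]
        refine Finset.prod_congr rfl fun j _ => Finset.prod_congr rfl fun l _ => ?_
        have e6 : ((Ideal.absNorm v.asIdeal : ℕ) : ℂ) = ((nm K v : ℕ) : ℂ) := rfl
        rw [e6]
        ring) (fun v => by
        have e6 : ((Ideal.absNorm v.asIdeal : ℕ) : ℂ) = ((nm K v : ℕ) : ℂ) := rfl
        rw [← e6, shiftB_edge]
        exact hB0 v)
    (D := ∑ c ∈ degrees X Y.toVariety n, (X.betti c.1 : ℝ) *
      (Y.triv c.2 * (shift (WRep.one K) τ).bd + ∑ j, (shift (Y.π c.2 j) τ).bd)) (fun x => by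
      refine (Finset.abs_sum_le_sum_abs _ _).trans (Finset.sum_le_sum fun c _ => ?_)
      rw [abs_mul]
      refine mul_le_mul (abs_TV X _ _) ?_ (abs_nonneg _) (Nat.cast_nonneg _)
      refine (Complex.abs_re_le_norm _).trans ((norm_add_le _ _).trans ?_)
      rw [norm_mul, Complex.norm_natCast]
      refine add_le_add (mul_le_mul_of_nonneg_left ?_ (Nat.cast_nonneg _))
        ((norm_sum_le _ _).trans (Finset.sum_le_sum fun j _ => ?_))
      · rw [WRep.trace_vx]
        exact WRep.norm_tH_le _ _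
      · rw [WRep.trace_vx]
        exact WRep.norm_tH_le _ _)
  have e9 : ∀ ε : ℝ, LFun (shiftB τ B) ((n : ℂ) / 2 + 1 + ε) = LFun B (edgePoint n τ + ε) := by
    intro ε
    rw [shiftB_LFun]
    unfold edgePoint
    congr 1
    ring
  refine ⟨by simpa only [e9] using h.1, ?_⟩
  have h2 := h.2
  simp only [WRep.trace_vx, Complex.add_re, Complex.re_sum, shiftB_size] at h2
  refine h2.congr_left fun ε => ?_
  congr 2
  funext x
  refine Finset.sum_congr rfl fun c _ => ?_
  congr 2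
  rw [show ((Y.triv c.2 : ℕ) : ℂ) = (((Y.triv c.2 : ℕ) : ℝ) : ℂ) by push_cast; rfl,
    Complex.re_ofReal_mul]

/-- the size of one twisted L-function, if its order exists -/
theorem size_of_order {X : Variety K} {i : ℕ} (hi : i ≤ 2 * X.dim) {θ : WRep K}
    (hθ : ∀ ρ : WRep K, ρ.IsIrr → ∀ (B : HeightOneSpectrum (𝓞 K) → ℂ[X]) (r : ℤ),
      IsTensor X i ρ B → Pool.Agent.Y149.Ord.HasOrder i B (-r) → r = ρ.inner θ)
    {ρ : WRep K} (hρ : ρ.IsIrr) {τ : ℝ} (h : OrderExists X i ρ τ) :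
    (fun ε => (shift ρ τ).inner θ * LL ε -
      EH K ε (fun x => TV X i (vx x) * ((shift ρ τ).tH x).re)) =o[𝓝[>] 0] LL := by
  obtain ⟨B, r, hB, hr⟩ := h
  have h1 := hθ (shift ρ τ) (shift_irr hρ τ) (shiftB τ B) r (tensor_shift hB)
    (hasOrder_shift.1 hr)
  have h2 := (tensor_size hi (tensor_shift hB)).2
  have h3 := Pool.Agent.Y149.Ord.tendsto_size (hasOrder_shift.1 hr)
  rw [Int.cast_neg, neg_neg, h1] at h3
  have h4 : (fun ε => (Pool.Agent.W353.EF.size i (shiftB τ B) ε -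
      ((shift ρ τ).inner θ : ℝ)) * LL ε) =o[𝓝[>] 0] LL := by
    have h5 : (fun ε => Pool.Agent.W353.EF.size i (shiftB τ B) ε -
        ((shift ρ τ).inner θ : ℝ)) =o[𝓝[>] 0] (fun _ => (1 : ℝ)) := by
      rw [Asymptotics.isLittleO_one_iff]
      have h6 := h3.sub_const (((shift ρ τ).inner θ : ℤ) : ℝ)
      rwa [sub_self] at h6
    have h7 := h5.mul_isBigO (Asymptotics.isBigO_refl LL (𝓝[>] 0))
    refine h7.congr_right fun ε => ?_
    rw [one_mul]
  refine (h2.sub h4).congr_left fun ε => ?_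
  ring

theorem one_irr : (WRep.one K).IsIrr := by
  have hQ : StNvq := Pool.Agent.N134.HS.t_nvq
  have h1 : HasGram (WRep.one K).tH (WRep.one K).tH ((WRep.one K).inner (WRep.one K)) :=
    WRep.gram hQ _ _
  have h2 : HasGram (WRep.one K).tH (WRep.one K).tH 1 := by
    unfold HasGram
    refine (lamS_sub (sysH K)).congr_left fun ε => ?_
    rw [one_mul, ← EH_one]
    congr 2
    funext x
    rw [WRep.one_tH]
    simp
  unfold WRep.IsIrr
  exact_mod_cast h1.unique h2

/-- **The orders of the L-functions of the products.** -/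
theorem product_orders {X : Variety K} {θ : ℕ → WRep K}
    (hθ : ∀ i ≤ 2 * X.dim, ∀ ρ : WRep K, ρ.IsIrr →
      ∀ (B : HeightOneSpectrum (𝓞 K) → ℂ[X]) (r : ℤ), IsTensor X i ρ B →
        Pool.Agent.Y149.Ord.HasOrder i B (-r) → r = ρ.inner (θ i))
    (Y : CMVariety K) (n : ℕ) (τ : ℝ) (hY : OrdersExist X Y n τ)
    (B : HeightOneSpectrum (𝓞 K) → ℂ[X]) (hB : IsProductAt X Y.toVariety n τ B) :
    (∀ᶠ ε : ℝ in 𝓝[>] 0, LFun B (edgePoint n τ + ε) ≠ 0) ∧
    Tendsto (Pool.Agent.W353.EH.size n τ B) (𝓝[>] 0) (𝓝 (pairing X Y θ n τ : ℝ)) ∧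
    ∀ r : ℤ, HasOrder n τ B (-r) → r = pairing X Y θ n τ := by
  classical
  obtain ⟨h0, h1⟩ := product_size_line hB
  have key : Tendsto (Pool.Agent.W353.EH.size n τ B) (𝓝[>] 0) (𝓝 (pairing X Y θ n τ : ℝ)) := by
    have h2 := finset_isLittleO (degrees X Y.toVariety n)
      (u := fun c ε => (Y.triv c.2 : ℝ) * ((shift (WRep.one K) τ).inner (θ c.1) * LL ε -
        EH K ε (fun x => TV X c.1 (vx x) * ((shift (WRep.one K) τ).tH x).re)) +
        ∑ j, ((shift (Y.π c.2 j) τ).inner (θ c.1) * LL ε -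
          EH K ε (fun x => TV X c.1 (vx x) * ((shift (Y.π c.2 j) τ).tH x).re))) (fun c hc => by
      obtain ⟨c1, c2, c3⟩ := mem_degrees.1 hc
      obtain ⟨hY1, hY2⟩ := hY c hc
      refine IsLittleO.add ?_ ?_
      · by_cases h3 : Y.triv c.2 = 0
        · rw [h3]
          simp only [Nat.cast_zero, zero_mul]
          exact isLittleO_zero LL (𝓝[>] (0 : ℝ))
        · exact (size_of_order c2 (hθ c.1 c2) one_irr (hY1 h3)).const_mul_left _
      · exact finset_isLittleO (Finset.univ : Finset (Fin (Y.r c.2))) (fun j _ =>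
          size_of_order c2 (hθ c.1 c2) (Y.irr c.2 j) (hY2 j)))
    have h3 : (fun ε => (Pool.Agent.W353.EH.size n τ B ε - pairing X Y θ n τ) * LL ε)
        =o[𝓝[>] 0] LL := by
      refine (h1.sub h2).congr' ?_ (EventuallyEq.refl _ _)
      filter_upwards [self_mem_nhdsWithin] with ε hε
      have hε' : (0 : ℝ) < ε := hε
      have hρ : ∀ (ρ : WRep K) x, |(ρ.tH x).re| ≤ ρ.bd := fun ρ x =>
        (Complex.abs_re_le_norm _).trans (ρ.norm_tH_le x)
      have b1 : ∀ (ρ : WRep K) (a : ℕ) x, |TV X a (vx x) * (ρ.tH x).re| ≤ X.betti a * ρ.bd :=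
        fun ρ a x => by
          rw [abs_mul]
          exact mul_le_mul (abs_TV X a _) (hρ ρ x) (abs_nonneg _) (Nat.cast_nonneg _)
      have e1 : EH K ε (fun x => ∑ c ∈ degrees X Y.toVariety n,
          TV X c.1 (vx x) * (Y.triv c.2 * ((shift (WRep.one K) τ).tH x).re +
            ∑ j, ((shift (Y.π c.2 j) τ).tH x).re)) =
          ∑ c ∈ degrees X Y.toVariety n, ((Y.triv c.2 : ℝ) *
            EH K ε (fun x => TV X c.1 (vx x) * ((shift (WRep.one K) τ).tH x).re) +
            ∑ j, EH K ε (fun x => TV X c.1 (vx x) * ((shift (Y.π c.2 j) τ).tH x).re)) := by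
        have e2 : (fun x : HX K => ∑ c ∈ degrees X Y.toVariety n,
            TV X c.1 (vx x) * ((Y.triv c.2 : ℝ) * ((shift (WRep.one K) τ).tH x).re +
              ∑ j, ((shift (Y.π c.2 j) τ).tH x).re)) =
            fun x => ∑ c ∈ degrees X Y.toVariety n,
              ((Y.triv c.2 : ℝ) * (TV X c.1 (vx x) * ((shift (WRep.one K) τ).tH x).re) +
              ∑ j, TV X c.1 (vx x) * ((shift (Y.π c.2 j) τ).tH x).re) := by
          funext x
          refine Finset.sum_congr rfl fun c _ => ?_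
          rw [mul_add, Finset.mul_sum]
          ring
        have b3 : ∀ (c : ℕ × ℕ) (x : HX K),
            |(Y.triv c.2 : ℝ) * (TV X c.1 (vx x) * ((shift (WRep.one K) τ).tH x).re)| ≤
            Y.triv c.2 * (X.betti c.1 * (shift (WRep.one K) τ).bd) := fun c x => by
          rw [abs_mul, Nat.abs_cast]
          exact mul_le_mul_of_nonneg_left (b1 _ _ _) (Nat.cast_nonneg _)
        have b4 : ∀ (c : ℕ × ℕ) (x : HX K),
            |∑ j, TV X c.1 (vx x) * ((shift (Y.π c.2 j) τ).tH x).re| ≤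
            ∑ j, X.betti c.1 * (shift (Y.π c.2 j) τ).bd := fun c x =>
          (Finset.abs_sum_le_sum_abs _ _).trans (Finset.sum_le_sum fun j _ => b1 _ _ x)
        rw [e2, EH_sum hε' (degrees X Y.toVariety n)
          (fun c x => (Y.triv c.2 : ℝ) * (TV X c.1 (vx x) * ((shift (WRep.one K) τ).tH x).re) +
              ∑ j, TV X c.1 (vx x) * ((shift (Y.π c.2 j) τ).tH x).re)
          (fun c => Y.triv c.2 * (X.betti c.1 * (shift (WRep.one K) τ).bd) +
            ∑ j, X.betti c.1 * (shift (Y.π c.2 j) τ).bd)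
          (fun c _ x => (abs_add_le _ _).trans (add_le_add (b3 c x) (b4 c x)))]
        refine Finset.sum_congr rfl fun c _ => ?_
        rw [EH_add hε' (b3 c) (b4 c), EH_const_mul]
        congr 1
        exact EH_sum hε' Finset.univ
          (fun j x => TV X c.1 (vx x) * ((shift (Y.π c.2 j) τ).tH x).re)
          (fun j => X.betti c.1 * (shift (Y.π c.2 j) τ).bd) (fun j _ x => b1 _ _ x)
      rw [e1]
      unfold pairing
      push_cast
      rw [sub_mul, Finset.sum_mul]
      simp only [Finset.sum_sub_distrib, Finset.sum_add_distrib, add_mul, mul_sub, Finset.sum_mul,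
        ← mul_assoc]
      ring
    have h4 := h3.tendsto_div_nhds_zero
    have h5 : Tendsto (fun ε => Pool.Agent.W353.EH.size n τ B ε - (pairing X Y θ n τ : ℝ))
        (𝓝[>] 0) (𝓝 0) := by
      refine h4.congr' ?_
      filter_upwards [LL_tendsto.eventually_gt_atTop 0] with ε h
      rw [mul_div_cancel_right₀ _ h.ne']
    have h6 := h5.add_const (pairing X Y θ n τ : ℝ)
    simpa using h6
  refine ⟨h0, key, fun r hr => ?_⟩
  have h7 := hasOrder_tendsto hr
  rw [Int.cast_neg, neg_neg] at h7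
  exact_mod_cast tendsto_nhds_unique h7 key

end Pool.Agent.V8H25.Gov
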