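import Pool.Agent.N172.HS.Pf
import Pool.Agent.W353.EH.Defs

/-!
# Unramified twists of the representations of the Weil group, and the edge line
-/

set_option autoImplicit false
set_option linter.unusedSectionVars false

namespace Pool.Agent.V8H25.Gov

open NumberField Complex Filter Topology IsDedekindDomain Asymptotics Polynomial
open Pool.Agent.N172.HS
open Pool.Agent.W353.EF (IsFrobenius LFun)
open Pool.Agent.W353.TP (HX sysH LL LL_tendsto bdd_isLittleO)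
open Pool.Agent.W353.NF (vx)
open Pool.Agent.W353.EH (edgePoint)
open scoped ComplexConjugate

section chars

variable {F : Type} [Field F] [NumberField F]

/-- The twist of `χ` by the unramified character `𝔞 ↦ N(𝔞)^{-iτ}`. -/
noncomputable def shiftChar (τ : ℝ) (χ : Ideal (𝓞 F) →*₀ ℂ) : Ideal (𝓞 F) →*₀ ℂ where
  toFun 𝔞 := χ 𝔞 * ((Ideal.absNorm 𝔞 : ℕ) : ℂ) ^ (-(τ * I))
  map_zero' := by rw [map_zero, zero_mul]
  map_one' := by rw [map_one, one_mul, map_one]; simp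
  map_mul' 𝔞 𝔟 := by
    rw [map_mul, map_mul, Nat.cast_mul, Complex.natCast_mul_natCast_cpow]
    ring

theorem shiftChar_apply (τ : ℝ) (χ : Ideal (𝓞 F) →*₀ ℂ) (𝔞 : Ideal (𝓞 F)) :
    shiftChar τ χ 𝔞 = χ 𝔞 * ((Ideal.absNorm 𝔞 : ℕ) : ℂ) ^ (-(τ * I)) := rfl

theorem norm_unr (τ : ℝ) {n : ℕ} (hn : 0 < n) : ‖((n : ℕ) : ℂ) ^ (-(τ * I))‖ = 1 := by
  rw [Complex.norm_natCast_cpow_of_pos hn]
  simp

theorem unr_ne (τ : ℝ) {n : ℕ} (hn : 0 < n) : ((n : ℕ) : ℂ) ^ (-(τ * I)) ≠ 0 := by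
  rw [← norm_ne_zero_iff, norm_unr τ hn]
  exact one_ne_zero

theorem absNorm_pos {𝔞 : Ideal (𝓞 F)} (h : 𝔞 ≠ ⊥) : 0 < Ideal.absNorm 𝔞 :=
  Nat.pos_of_ne_zero fun h0 => h (Ideal.absNorm_eq_zero_iff.1 h0)

theorem unr_exp (τ : ℝ) {x : F} (hx : x ≠ 0) :
    ∏ σ : F →+* ℂ, exp ((-τ * Real.log ‖σ x‖ : ℝ) * I) =
      exp ((-τ * Real.log |(Algebra.norm ℚ x : ℝ)| : ℝ) * I) := by
  rw [← Complex.exp_sum]
  congr 1
  rw [← Finset.sum_mul]
  congr 1
  have h1 : |(Algebra.norm ℚ x : ℝ)| = ∏ σ : F →+* ℂ, ‖σ x‖ := by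
    have h2 := Algebra.norm_eq_prod_embeddings ℚ ℂ x
    have h3 := congrArg norm h2
    rw [norm_prod] at h3
    have h4 : ‖(algebraMap ℚ ℂ) (Algebra.norm ℚ x)‖ = |(Algebra.norm ℚ x : ℝ)| := by
      rw [eq_ratCast, Complex.norm_ratCast]
    rw [← h4, h3]
    exact (Fintype.prod_equiv (RingHom.equivRatAlgHom F ℂ) _ _ fun σ => rfl).symm
  rw [h1, Real.log_prod (fun σ _ => norm_ne_zero_iff.2 ((map_ne_zero σ).2 hx)), Finset.mul_sum]
  push_cast
  rfl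

theorem shift_hecke {𝔣 : Ideal (𝓞 F)} {k : (F →+* ℂ) → ℤ} {t : (F →+* ℂ) → ℝ}
    {χ : Ideal (𝓞 F) →*₀ ℂ} (h : IsHecke 𝔣 k t χ) (τ : ℝ) :
    IsHecke 𝔣 k (fun σ => t σ - τ) (shiftChar τ χ) where
  ne_bot := h.ne_bot
  supp 𝔞 ha := by
    rw [← h.supp 𝔞 ha, shiftChar_apply]
    exact ⟨fun h1 => left_ne_zero_of_mul h1, fun h1 => mul_ne_zero h1 (unr_ne τ (absNorm_pos ha))⟩
  unit 𝔞 ha := by
    by_cases h0 : 𝔞 = ⊥
    · rw [h0] at ha
      exact absurd (map_zero (shiftChar τ χ)) ha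
    rw [shiftChar_apply] at ha ⊢
    rw [norm_mul, norm_unr τ (absNorm_pos h0), mul_one]
    exact h.unit 𝔞 (left_ne_zero_of_mul ha)
  ray x hx h1 h2 := by
    rw [shiftChar_apply, h.ray x hx h1 h2]
    have hxF : (x : F) ≠ 0 := by exact_mod_cast hx
    have hnorm : ((Ideal.absNorm (Ideal.span {x}) : ℕ) : ℝ) = |(Algebra.norm ℚ (x : F) : ℝ)| := by
      rw [Ideal.absNorm_span_singleton]
      have e1 : (Algebra.norm ℚ (x : F)) = ((Algebra.norm ℤ x : ℤ) : ℚ) :=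
        (Algebra.coe_norm_int x).symm
      rw [e1, Nat.cast_natAbs]
      push_cast
      rfl
    have hpos : 0 < ((Ideal.absNorm (Ideal.span {x}) : ℕ) : ℝ) := by
      have : Ideal.span {x} ≠ (⊥ : Ideal (𝓞 F)) := by rwa [Ne, Ideal.span_singleton_eq_bot]
      exact_mod_cast absNorm_pos this
    have e2 : ((Ideal.absNorm (Ideal.span {x}) : ℕ) : ℂ) ^ (-(τ * I)) =
        exp ((-τ * Real.log |(Algebra.norm ℚ (x : F) : ℝ)| : ℝ) * I) := by
      rw [← hnorm, Complex.cpow_def_of_ne_zero (by exact_mod_cast hpos.ne')]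
      congr 1
      rw [← Complex.natCast_log]
      push_cast
      ring
    rw [e2, ← unr_exp τ hxF]
    unfold arch
    rw [← Finset.prod_mul_distrib]
    refine Finset.prod_congr rfl fun σ _ => ?_
    rw [mul_assoc, ← Complex.exp_add]
    congr 2
    push_cast
    ring

end chars

section reps

variable {K : Type} [Field K] [NumberField K]

/-- The twist `ρ ⊗ | |^{iτ}`: the trace of the Frobenius at `v` is multiplied by `q_v^{-iτ}`, so that
`L(s, shift ρ τ) = L(s + iτ, ρ)`. -/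
noncomputable def shift (ρ : WRep K) (τ : ℝ) : WRep K :=
  { r := ρ.r
    F := ρ.F
    fld := ρ.fld
    nf := ρ.nf
    alg := ρ.alg
    𝔣 := ρ.𝔣
    k := ρ.k
    t := fun j σ => ρ.t j σ - τ
    χ := fun j => shiftChar τ (ρ.χ j)
    hecke := fun j => shift_hecke (ρ.hecke j) τ
    c := ρ.c }

theorem indTrace_shift {F : Type} [Field F] [NumberField F] [Algebra K F] (τ : ℝ)
    (χ : Ideal (𝓞 F) →*₀ ℂ) (v : HeightOneSpectrum (𝓞 K)) :
    indTrace (shiftChar τ χ) v =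
      ((Ideal.absNorm v.asIdeal : ℕ) : ℂ) ^ (-(τ * I)) * indTrace χ v := by
  unfold indTrace
  rw [← smul_eq_mul, smul_finsum]
  refine finsum_congr fun w => ?_
  rw [smul_finsum]
  refine finsum_congr fun hw => ?_
  rw [shiftChar_apply, hw.2, smul_eq_mul]
  ring

theorem shift_trace (ρ : WRep K) (τ : ℝ) (v : HeightOneSpectrum (𝓞 K)) :
    (shift ρ τ).trace v = ((Ideal.absNorm v.asIdeal : ℕ) : ℂ) ^ (-(τ * I)) * ρ.trace v := by
  have h1 : (shift ρ τ).trace v = ∑ j : Fin ρ.r, (ρ.c j : ℂ) *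
    indTrace (shiftChar τ (ρ.χ j)) v := rfl
  rw [h1]
  unfold WRep.trace
  rw [Finset.mul_sum]
  refine Finset.sum_congr rfl fun j _ => ?_
  rw [indTrace_shift (K := K) τ (ρ.χ j) v]
  ring

theorem shift_tH (ρ : WRep K) (τ : ℝ) (x : HX K) :
    (shift ρ τ).tH x = ((Ideal.absNorm (vx x).asIdeal : ℕ) : ℂ) ^ (-(τ * I)) * ρ.tH x := by
  rw [← WRep.trace_vx, shift_trace, WRep.trace_vx]

/-- the inner products are determined by the traces -/
theorem inner_eq_of_gram {ρ σ ρ' σ' : WRep K}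
    (h : ∀ x, ρ.tH x * conj (σ.tH x) = ρ'.tH x * conj (σ'.tH x)) : ρ.inner σ = ρ'.inner σ' := by
  have hQ : StNvq := Pool.Agent.N134.HS.t_nvq
  have h1 : HasGram ρ.tH σ.tH (ρ.inner σ) := WRep.gram hQ ρ σ
  have h2 : HasGram ρ'.tH σ'.tH (ρ'.inner σ') := WRep.gram hQ ρ' σ'
  have h3 : HasGram ρ.tH σ.tH (ρ'.inner σ') := by
    unfold HasGram at h2 ⊢
    simpa only [h] using h2
  exact_mod_cast h1.unique h3

theorem unr_mul_conj (τ : ℝ) (x : HX K) :
    ((Ideal.absNorm (vx x).asIdeal : ℕ) : ℂ) ^ (-(τ * I)) *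
      conj (((Ideal.absNorm (vx x).asIdeal : ℕ) : ℂ) ^ (-(τ * I))) = 1 := by
  rw [Complex.mul_conj, Complex.normSq_eq_norm_sq, norm_unr τ (absNorm_pos (vx x).ne_bot)]
  simp

theorem inner_shift_shift (ρ σ : WRep K) (τ : ℝ) :
    (shift ρ τ).inner (shift σ τ) = ρ.inner σ := by
  refine inner_eq_of_gram fun x => ?_
  rw [shift_tH, shift_tH, map_mul]
  have h := unr_mul_conj τ x
  calc _ = (((Ideal.absNorm (vx x).asIdeal : ℕ) : ℂ) ^ (-(τ * I)) *
      conj (((Ideal.absNorm (vx x).asIdeal : ℕ) : ℂ) ^ (-(τ * I)))) *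
      (ρ.tH x * conj (σ.tH x)) := by ring
    _ = _ := by rw [h, one_mul]

theorem shift_irr {ρ : WRep K} (h : ρ.IsIrr) (τ : ℝ) : (shift ρ τ).IsIrr := by
  unfold WRep.IsIrr at h ⊢
  rw [inner_shift_shift, h]

end reps

section line

variable {K : Type} [Field K] [NumberField K]

/-- the Euler factors of the shifted function `L(s + iτ)` -/
noncomputable def shiftB (τ : ℝ) (B : HeightOneSpectrum (𝓞 K) → ℂ[X])
    (v : HeightOneSpectrum (𝓞 K)) : ℂ[X] :=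
  (B v).comp (C (((Ideal.absNorm v.asIdeal : ℕ) : ℂ) ^ (-(τ * I))) * X)

theorem shiftB_eval (τ : ℝ) (B : HeightOneSpectrum (𝓞 K) → ℂ[X]) (v : HeightOneSpectrum (𝓞 K))
    (z : ℂ) : (shiftB τ B v).eval z =
      (B v).eval (((Ideal.absNorm v.asIdeal : ℕ) : ℂ) ^ (-(τ * I)) * z) := by
  unfold shiftB
  rw [eval_comp, eval_mul, eval_C, eval_X]

theorem shiftB_LFun (τ : ℝ) (B : HeightOneSpectrum (𝓞 K) → ℂ[X]) (s : ℂ) :
    LFun (shiftB τ B) s = LFun B (s + τ * I) := by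
  unfold LFun
  refine tprod_congr fun v => ?_
  have hq : ((Ideal.absNorm v.asIdeal : ℕ) : ℂ) ≠ 0 := by
    exact_mod_cast (absNorm_pos v.ne_bot).ne'
  rw [shiftB_eval, ← Complex.cpow_add _ _ hq]
  congr 4
  ring

/-- `log |L(i/2 + 1 + iτ + ε)| / log(1/ε)` at the point of height `τ` -/
theorem shiftB_size (i : ℕ) (τ : ℝ) (B : HeightOneSpectrum (𝓞 K) → ℂ[X]) (ε : ℝ) :
    Pool.Agent.W353.EF.size i (shiftB τ B) ε = Pool.Agent.W353.EH.size i τ B ε := by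
  unfold Pool.Agent.W353.EF.size Pool.Agent.W353.EH.size
  rw [shiftB_LFun]
  unfold edgePoint
  congr 4
  ring

/-- The order of `L(s)` (Euler factors `B v`) at the point `s = i/2 + 1 + iτ` of the edge line exists
and is `k`: the function `ε^{-k} L(i/2 + 1 + iτ + ε)` has a finite nonzero limit as `ε → 0+`.  If
there is a meromorphic continuation to a neighbourhood of the point, then this is its order; a pole
of order `r` is the case `k = -r`. -/
def HasOrder (i : ℕ) (τ : ℝ) (B : HeightOneSpectrum (𝓞 K) → ℂ[X]) (k : ℤ) : Prop :=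
  ∃ c : ℂ, c ≠ 0 ∧
    Tendsto (fun ε : ℝ => (ε : ℂ) ^ (-k) * LFun B (edgePoint i τ + ε)) (𝓝[>] 0) (𝓝 c)

theorem hasOrder_shift {i : ℕ} {τ : ℝ} {B : HeightOneSpectrum (𝓞 K) → ℂ[X]} {k : ℤ} :
    HasOrder i τ B k ↔ Pool.Agent.Y149.Ord.HasOrder i (shiftB τ B) k := by
  have e : ∀ ε : ℝ, LFun (shiftB τ B) ((i : ℂ) / 2 + 1 + ε) = LFun B (edgePoint i τ + ε) := by
    intro ε
    rw [shiftB_LFun]
    unfold edgePoint
    congr 1
    ring
  unfold HasOrder Pool.Agent.Y149.Ord.HasOrder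
  simp only [e]

theorem hasOrder_tendsto {i : ℕ} {τ : ℝ} {B : HeightOneSpectrum (𝓞 K) → ℂ[X]} {k : ℤ}
    (h : HasOrder i τ B k) :
    Tendsto (Pool.Agent.W353.EH.size i τ B) (𝓝[>] 0) (𝓝 (-(k : ℝ))) := by
  have h1 := Pool.Agent.Y149.Ord.tendsto_size (hasOrder_shift.1 h)
  exact h1.congr fun ε => shiftB_size i τ B ε

end line

end Pool.Agent.V8H25.Gov
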